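import Pool.Agent.Helper67.DO.DefsC

/-!
# MP_d07457_gt, module C4

Dependence of the smoothing construction on the parameters.
-/

namespace Pool.Agent.Helper67.DO

open scoped BigOperators Real Topology
open MeasureTheory

noncomputable section

theorem c4_phi_diff (s0 : ℝ) (N : ℕ) (j : ℤ) : Differentiable ℂ (phiC s0 N j) := by
  unfold phiC
  by_cases h0 : j = 0
  · simp only [if_pos h0]
    exact differentiable_const _
  · by_cases h1 : 0 < j
    · simp only [if_neg h0, if_pos h1]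
      exact (differentiable_const _).mul (Complex.differentiable_cos.comp (by fun_prop))
    · simp only [if_neg h0, if_neg h1]
      exact (differentiable_const _).mul (Complex.differentiable_sin.comp (by fun_prop))

theorem c4_dphi_cont (s0 : ℝ) (N : ℕ) (j : ℤ) : Continuous (deriv (phiC s0 N j)) :=
  (c4_phi_diff s0 N j).contDiff.continuous_deriv_one

theorem c4_b_diff (s0 : ℝ) (ns N : ℕ) (th : ℕ × ℤ → ℝ) : Differentiable ℂ (bC s0 ns N th) := by
  unfold bC
  refine (differentiable_const _).mul ?_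
  exact Differentiable.fun_sum fun j _ => (differentiable_const _).mul (c4_phi_diff s0 N j)

theorem c4_b_deriv (s0 : ℝ) (ns N : ℕ) (th : ℕ × ℤ → ℝ) (z : ℂ) :
    deriv (bC s0 ns N th) z = (delC s0 ns N : ℂ) * ∑ j ∈ frC ns N, (th (N, j) : ℂ) * deriv (phiC s0 N j) z := by
  have h1 : ∀ j ∈ frC ns N, HasDerivAt (fun z => (th (N, j) : ℂ) * phiC s0 N j z)
      ((th (N, j) : ℂ) * deriv (phiC s0 N j) z) z := fun j _ =>
    ((c4_phi_diff s0 N j z).hasDerivAt).const_mul _
  have h2 := (HasDerivAt.fun_sum h1).const_mul (delC s0 ns N : ℂ)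
  exact h2.deriv

theorem c4_fc_lin {h h' : ℂ → ℂ} (hh : Continuous fun x : ℝ => h x) (hh' : Continuous fun x : ℝ => h' x)
    (c : ℂ) (l : ℤ) : fcC (fun z => c * h z + h' z) l = c * fcC h l + fcC h' l := by
  unfold fcC
  have he : Continuous fun x : ℝ => Complex.exp (-(2 * π * Complex.I * l * x)) := by fun_prop
  rw [← intervalIntegral.integral_const_mul, ← intervalIntegral.integral_add]
  · refine intervalIntegral.integral_congr fun x _ => ?_
    ring
  · exact (continuous_const.mul (hh.mul he)).intervalIntegrable _ _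
  · exact (hh'.mul he).intervalIntegrable _ _

theorem c4_fc_congr {h h' : ℂ → ℂ} (hh : ∀ x : ℝ, h x = h' x) (l : ℤ) : fcC h l = fcC h' l := by
  unfold fcC
  simp only [hh]

theorem c4_cf_lin {s0 : ℝ} {ns N : ℕ} {j : ℤ} {h h' : ℂ → ℂ} (hh : Continuous fun x : ℝ => h x)
    (hh' : Continuous fun x : ℝ => h' x) (c : ℂ) :
    cfC s0 ns N j (fun z => c * h z + h' z) = c * cfC s0 ns N j h + cfC s0 ns N j h' := by
  unfold cfC
  simp only [c4_fc_lin hh hh']
  split_ifs <;> ring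

theorem c4_cf_congr {s0 : ℝ} {ns N : ℕ} {j : ℤ} {h h' : ℂ → ℂ} (hh : ∀ x : ℝ, h x = h' x) :
    cfC s0 ns N j h = cfC s0 ns N j h' := by
  unfold cfC
  simp only [c4_fc_congr hh]

theorem c4_Pl_lin {n : ℕ} {h h' : ℂ → ℂ} (hh : Continuous fun x : ℝ => h x)
    (hh' : Continuous fun x : ℝ => h' x) (c : ℂ) (z : ℂ) :
    PlC n (fun z => c * h z + h' z) z = c * PlC n h z + PlC n h' z := by
  unfold PlC
  simp only [c4_fc_lin hh hh']
  rw [Finset.mul_sum, ← Finset.sum_add_distrib]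
  exact Finset.sum_congr rfl fun l _ => by ring

theorem c4_Pl_congr {n : ℕ} {h h' : ℂ → ℂ} (hh : ∀ x : ℝ, h x = h' x) (z : ℂ) :
    PlC n h z = PlC n h' z := by
  unfold PlC
  simp only [c4_fc_congr hh]

theorem c4_real_mem {s : ℝ} (hs : 0 < s) (x : ℝ) : (x : ℂ) ∈ St s := by
  show |((x : ℂ)).im| < s
  simpa using hs

theorem c4_mono {s s' : ℝ} (h : s ≤ s') : St s ⊆ St s' := fun z hz => lt_of_lt_of_le (show |z.im| < s from hz) h

theorem c4_sC_pos {s0 : ℝ} (h : 0 < s0) (N : ℕ) : 0 < sC s0 N := by unfold sC; positivity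

theorem c4_gam_pos {s0 : ℝ} (h : 0 < s0) (N : ℕ) : 0 < gamC s0 N := by unfold gamC; positivity

theorem c4_HB_cont {s : ℝ} (hs : 0 < s) {κ : ℂ → ℂ} (h : HB s κ) : Continuous fun x : ℝ => κ x :=
  h.hol.continuousOn.comp_continuous Complex.continuous_ofReal (c4_real_mem hs)

theorem c4_h_cont {s0 : ℝ} {ns N : ℕ} {th : ℕ × ℤ → ℝ} {κ : ℂ → ℂ} (h : Continuous fun x : ℝ => κ x) :
    Continuous fun x : ℝ => hC s0 ns N th κ x := by
  unfold hC
  have h1 : Continuous (deriv (bC s0 ns N th)) := (c4_b_diff s0 ns N th).contDiff.continuous_deriv_one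
  exact (continuous_const.add (h1.comp Complex.continuous_ofReal)).mul h

/-- the recursion depends on the blocks `< N` only -/
theorem c4_tri (s0 : ℝ) (ns : ℕ) (κ : ℂ → ℂ) (N : ℕ) : ∀ th th' : ℕ × ℤ → ℝ,
    (∀ M < N, ∀ j, th (M, j) = th' (M, j)) → kapN s0 ns th κ N = kapN s0 ns th' κ N := by
  induction N with
  | zero => intro th th' _; rfl
  | succ N ih =>
    intro th th' h
    have h1 := ih th th' fun M hM j => h M (Nat.lt_succ_of_lt hM) j
    have h2 : bC s0 ns N th = bC s0 ns N th' := by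
      funext z
      unfold bC
      simp only [h N (Nat.lt_succ_self N)]
    have h3 : hC s0 ns N th = hC s0 ns N th' := by
      funext κ z
      unfold hC
      rw [h2]
    have h4 : CinvC s0 ns N th = CinvC s0 ns N th' := by
      funext w
      unfold CinvC CC
      rw [h2]
    funext w
    show hC s0 ns N th (kapN s0 ns th κ N) (CinvC s0 ns N th w)
        - PlC (nC ns N) (hC s0 ns N th (kapN s0 ns th κ N)) (CinvC s0 ns N th w)
      = hC s0 ns N th' (kapN s0 ns th' κ N) (CinvC s0 ns N th' w)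
        - PlC (nC ns N) (hC s0 ns N th' (kapN s0 ns th' κ N)) (CinvC s0 ns N th' w)
    rw [h1, h3, h4]

theorem c4_kap_HB (h3 : ST_C3) {s0 : ℝ} {ns : ℕ} (hs : 0 < s0) (hs1 : s0 ≤ 1) (hn : 1 ≤ ns) {th : ℕ × ℤ → ℝ}
    (hth : th ∈ Cu) {κ : ℂ → ℂ} (h : HB s0 κ) (N : ℕ) : HB (sC s0 N) (kapN s0 ns th κ N) := by
  obtain ⟨B, hB⟩ := h.bdd
  exact (h3 s0 ns hs hs1 hn th hth κ B h hB N).1

theorem c4_kap_lin (h3 : ST_C3) {s0 : ℝ} {ns : ℕ} (hs : 0 < s0) (hs1 : s0 ≤ 1) (hn : 1 ≤ ns) {th : ℕ × ℤ → ℝ}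
    (hth : th ∈ Cu) {κ κ' : ℂ → ℂ} (h : HB s0 κ) (h' : HB s0 κ') (c : ℂ) (N : ℕ) :
    kapN s0 ns th (fun z => c * κ z + κ' z) N = fun z => c * kapN s0 ns th κ N z + kapN s0 ns th κ' N z := by
  induction N with
  | zero => rfl
  | succ N ih =>
    have h1 : hC s0 ns N th (kapN s0 ns th (fun z => c * κ z + κ' z) N)
        = fun z => c * hC s0 ns N th (kapN s0 ns th κ N) z + hC s0 ns N th (kapN s0 ns th κ' N) z := by
      rw [ih]
      funext z
      unfold hC
      ring
    have hk := c4_h_cont (ns := ns) (N := N) (th := th) (s0 := s0)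
      (c4_HB_cont (c4_sC_pos hs N) (c4_kap_HB h3 hs hs1 hn hth h N))
    have hk' := c4_h_cont (ns := ns) (N := N) (th := th) (s0 := s0)
      (c4_HB_cont (c4_sC_pos hs N) (c4_kap_HB h3 hs hs1 hn hth h' N))
    funext w
    show hC s0 ns N th (kapN s0 ns th (fun z => c * κ z + κ' z) N) (CinvC s0 ns N th w)
        - PlC (nC ns N) (hC s0 ns N th (kapN s0 ns th (fun z => c * κ z + κ' z) N)) (CinvC s0 ns N th w)
      = c * (hC s0 ns N th (kapN s0 ns th κ N) (CinvC s0 ns N th w)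
        - PlC (nC ns N) (hC s0 ns N th (kapN s0 ns th κ N)) (CinvC s0 ns N th w))
        + (hC s0 ns N th (kapN s0 ns th κ' N) (CinvC s0 ns N th w)
        - PlC (nC ns N) (hC s0 ns N th (kapN s0 ns th κ' N)) (CinvC s0 ns N th w))
    rw [h1, c4_Pl_lin hk hk']
    ring

theorem c4_kap_loc (h2 : ST_C2) {s0 : ℝ} {ns : ℕ} (hs : 0 < s0) (hs1 : s0 ≤ 1) (hn : 1 ≤ ns) {th : ℕ × ℤ → ℝ}
    (hth : th ∈ Cu) {κ κ' : ℂ → ℂ} (h : ∀ z ∈ St s0, κ z = κ' z) (N : ℕ) :
    ∀ z ∈ St (sC s0 N), kapN s0 ns th κ N z = kapN s0 ns th κ' N z := by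
  induction N with
  | zero =>
    intro z hz
    have e : sC s0 0 = s0 := by unfold sC; ring
    rw [e] at hz
    exact h z hz
  | succ N ih =>
    intro w hw
    have h1 := (h2 s0 ns N hs hs1 hn th hth).2.2.2.2.2.2.1 w hw
    have h4 : CinvC s0 ns N th w ∈ St (sC s0 N) := c4_mono (by linarith [c4_gam_pos hs N]) h1.1
    have h5 : ∀ z ∈ St (sC s0 N), hC s0 ns N th (kapN s0 ns th κ N) z = hC s0 ns N th (kapN s0 ns th κ' N) z := by
      intro z hz
      unfold hC
      rw [ih z hz]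
    show hC s0 ns N th (kapN s0 ns th κ N) (CinvC s0 ns N th w)
        - PlC (nC ns N) (hC s0 ns N th (kapN s0 ns th κ N)) (CinvC s0 ns N th w)
      = hC s0 ns N th (kapN s0 ns th κ' N) (CinvC s0 ns N th w)
        - PlC (nC ns N) (hC s0 ns N th (kapN s0 ns th κ' N)) (CinvC s0 ns N th w)
    rw [h5 _ h4, c4_Pl_congr (h := hC s0 ns N th (kapN s0 ns th κ N)) (h' := hC s0 ns N th (kapN s0 ns th κ' N))
      fun x => h5 _ (c4_real_mem (c4_sC_pos hs N) x)]

/-! ### continuity -/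

/-- the parameter space -/
abbrev C4X : Type := ↥(Cu ×ˢ (Set.univ : Set ℝ))

theorem c4_b_joint (s0 : ℝ) (ns N : ℕ) : Continuous fun q : (ℕ × ℤ → ℝ) × ℂ => bC s0 ns N q.1 q.2 := by
  unfold bC
  refine continuous_const.mul (continuous_finsetSum _ fun j _ => ?_)
  refine (Complex.continuous_ofReal.comp ((continuous_apply (N, j)).comp continuous_fst)).mul ?_
  exact (c4_phi_diff s0 N j).continuous.comp continuous_snd

theorem c4_db_joint (s0 : ℝ) (ns N : ℕ) : Continuous fun q : (ℕ × ℤ → ℝ) × ℂ => deriv (bC s0 ns N q.1) q.2 := by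
  simp only [c4_b_deriv]
  refine continuous_const.mul (continuous_finsetSum _ fun j _ => ?_)
  refine (Complex.continuous_ofReal.comp ((continuous_apply (N, j)).comp continuous_fst)).mul ?_
  exact (c4_dphi_cont s0 N j).comp continuous_snd

theorem c4_St_conv (s : ℝ) : Convex ℝ (St s) := by
  intro z hz w hw a b ha hb hab
  have hz' : |z.im| < s := hz
  have hw' : |w.im| < s := hw
  have e : (a • z + b • w).im = a * z.im + b * w.im := by simp
  show |(a • z + b • w).im| < s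
  rw [e]
  rw [abs_lt] at hz' hw' ⊢
  rcases ha.eq_or_lt with h0 | h0
  · have hb1 : b = 1 := by linarith
    subst hb1
    rw [← h0]
    constructor <;> linarith [hw'.1, hw'.2]
  · have h1 := mul_lt_mul_of_pos_left hz'.1 h0
    have h2 := mul_lt_mul_of_pos_left hz'.2 h0
    have h3 := mul_le_mul_of_nonneg_left hw'.1.le hb
    have h4 := mul_le_mul_of_nonneg_left hw'.2.le hb
    have e1 : a * s + b * s = s := by rw [← add_mul, hab, one_mul]
    constructor
    · nlinarith
    · nlinarith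

theorem c4_b_lip (h2 : ST_C2) {s0 : ℝ} {ns : ℕ} (hs : 0 < s0) (hs1 : s0 ≤ 1) (hn : 1 ≤ ns) (N : ℕ)
    {th : ℕ × ℤ → ℝ} (hth : th ∈ Cu) {z z' : ℂ} (hz : z ∈ St (sC s0 N - gamC s0 N / 4))
    (hz' : z' ∈ St (sC s0 N - gamC s0 N / 4)) :
    ‖bC s0 ns N th z - bC s0 ns N th z'‖ ≤ 1 / 32 * ‖z - z'‖ := by
  have h1 := h2 s0 ns N hs hs1 hn th hth
  exact (c4_St_conv _).norm_image_sub_le_of_norm_deriv_le (fun u _ => h1.1 u) h1.2.2.2.2.2.1 hz' hz

theorem c4_inv_cont (h2 : ST_C2) {s0 : ℝ} {ns : ℕ} (hs : 0 < s0) (hs1 : s0 ≤ 1) (hn : 1 ≤ ns) (N : ℕ) :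
    ContinuousOn (fun q : C4X × ℂ => CinvC s0 ns N q.1.1.1 q.2) (Set.univ ×ˢ St (sC s0 (N + 1))) := by
  intro q0 hq0
  have hw0 : q0.2 ∈ St (sC s0 (N + 1)) := hq0.2
  have hth0 : q0.1.1.1 ∈ Cu := q0.1.2.1
  have h0 := (h2 s0 ns N hs hs1 hn _ hth0).2.2.2.2.2.2.1 _ hw0
  have hg := c4_gam_pos hs N
  set z0 := CinvC s0 ns N q0.1.1.1 q0.2 with hz0
  have hz0m : z0 ∈ St (sC s0 N - gamC s0 N / 4) := c4_mono (by linarith) h0.1
  have hbc : Continuous fun q : C4X × ℂ => bC s0 ns N q.1.1.1 z0 :=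
    (c4_b_joint s0 ns N).comp (((continuous_fst.comp (continuous_subtype_val.comp continuous_fst))).prodMk
      continuous_const)
  have hcont : Continuous fun q : C4X × ℂ =>
      32 / 31 * (‖q.2 - q0.2‖ + ‖bC s0 ns N q.1.1.1 z0 - bC s0 ns N q0.1.1.1 z0‖) :=
    continuous_const.mul ((continuous_snd.sub continuous_const).norm.add (hbc.sub continuous_const).norm)
  have hlim : Filter.Tendsto (fun q : C4X × ℂ =>
      32 / 31 * (‖q.2 - q0.2‖ + ‖bC s0 ns N q.1.1.1 z0 - bC s0 ns N q0.1.1.1 z0‖))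
      (𝓝[Set.univ ×ˢ St (sC s0 (N + 1))] q0) (𝓝 0) := by
    have h5 := hcont.continuousWithinAt (s := Set.univ ×ˢ St (sC s0 (N + 1))) (x := q0)
    have h6 : 32 / 31 * (‖q0.2 - q0.2‖ + ‖bC s0 ns N q0.1.1.1 z0 - bC s0 ns N q0.1.1.1 z0‖) = 0 := by simp
    have h7 : Filter.Tendsto (fun q : C4X × ℂ =>
      32 / 31 * (‖q.2 - q0.2‖ + ‖bC s0 ns N q.1.1.1 z0 - bC s0 ns N q0.1.1.1 z0‖))
      (𝓝[Set.univ ×ˢ St (sC s0 (N + 1))] q0)
      (𝓝 (32 / 31 * (‖q0.2 - q0.2‖ + ‖bC s0 ns N q0.1.1.1 z0 - bC s0 ns N q0.1.1.1 z0‖))) := h5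
    rwa [h6] at h7
  show Filter.Tendsto (fun q : C4X × ℂ => CinvC s0 ns N q.1.1.1 q.2) (𝓝[Set.univ ×ˢ St (sC s0 (N + 1))] q0) (𝓝 z0)
  rw [tendsto_iff_norm_sub_tendsto_zero]
  refine squeeze_zero' (Filter.Eventually.of_forall fun _ => norm_nonneg _) ?_ hlim
  filter_upwards [self_mem_nhdsWithin] with q hq
  have hw : q.2 ∈ St (sC s0 (N + 1)) := hq.2
  have hth : q.1.1.1 ∈ Cu := q.1.2.1
  have h1 := (h2 s0 ns N hs hs1 hn _ hth).2.2.2.2.2.2.1 _ hw
  set z := CinvC s0 ns N q.1.1.1 q.2 with hz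
  have hzm : z ∈ St (sC s0 N - gamC s0 N / 4) := c4_mono (by linarith) h1.1
  have e0 : z0 + bC s0 ns N q0.1.1.1 z0 = q0.2 := h0.2.2.1
  have e1 : z + bC s0 ns N q.1.1.1 z = q.2 := h1.2.2.1
  have h3 := c4_b_lip h2 hs hs1 hn N hth hzm hz0m
  have e2 : z - z0 = (q.2 - q0.2) - (bC s0 ns N q.1.1.1 z - bC s0 ns N q.1.1.1 z0)
      - (bC s0 ns N q.1.1.1 z0 - bC s0 ns N q0.1.1.1 z0) := by
    rw [← e0, ← e1]; ring
  have h4 : ‖z - z0‖ ≤ ‖q.2 - q0.2‖ + ‖bC s0 ns N q.1.1.1 z - bC s0 ns N q.1.1.1 z0‖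
      + ‖bC s0 ns N q.1.1.1 z0 - bC s0 ns N q0.1.1.1 z0‖ := by
    have h5 := norm_sub_le ((q.2 - q0.2) - (bC s0 ns N q.1.1.1 z - bC s0 ns N q.1.1.1 z0))
      (bC s0 ns N q.1.1.1 z0 - bC s0 ns N q0.1.1.1 z0)
    have h6 := norm_sub_le (q.2 - q0.2) (bC s0 ns N q.1.1.1 z - bC s0 ns N q.1.1.1 z0)
    rw [← e2] at h5
    linarith
  linarith

/-- a parametric Fourier coefficient is continuous -/
theorem c4_fc_cont {F : C4X → ℂ → ℂ} (hF : Continuous fun q : C4X × ℝ => F q.1 (q.2 : ℂ)) (l : ℤ) :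
    Continuous fun x : C4X => fcC (F x) l := by
  unfold fcC
  refine intervalIntegral.continuous_parametric_intervalIntegral_of_continuous' ?_ 0 1
  have he : Continuous fun q : C4X × ℝ => Complex.exp (-(2 * π * Complex.I * l * (q.2 : ℂ))) := by fun_prop
  exact hF.mul he

theorem c4_cf_cont {s0 : ℝ} {ns N : ℕ} {j : ℤ} {F : C4X → ℂ → ℂ}
    (hF : Continuous fun q : C4X × ℝ => F q.1 (q.2 : ℂ)) : Continuous fun x : C4X => cfC s0 ns N j (F x) := by
  have h := c4_fc_cont hF
  unfold cfC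
  by_cases h0 : j = 0
  · simp only [if_pos h0]
    exact ((h 0).mul continuous_const).div_const _
  · by_cases h1 : 0 < j
    · simp only [if_neg h0, if_pos h1]
      exact (((h j).add (h (-j))).mul continuous_const).div_const _
    · simp only [if_neg h0, if_neg h1]
      exact ((continuous_const.mul ((h j).sub (h (-j)))).mul continuous_const).div_const _

theorem c4_real_cont {s : ℝ} (hs : 0 < s) {F : C4X → ℂ → ℂ}
    (hF : ContinuousOn (fun q : C4X × ℂ => F q.1 q.2) (Set.univ ×ˢ St s)) :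
    Continuous fun q : C4X × ℝ => F q.1 (q.2 : ℂ) :=
  hF.comp_continuous (continuous_fst.prodMk (Complex.continuous_ofReal.comp continuous_snd))
    fun q => ⟨Set.mem_univ _, c4_real_mem hs q.2⟩

theorem c4_h_joint {s0 : ℝ} {ns N : ℕ} {s : ℝ} {F : C4X → ℂ → ℂ}
    (hF : ContinuousOn (fun q : C4X × ℂ => F q.1 q.2) (Set.univ ×ˢ St s)) :
    ContinuousOn (fun q : C4X × ℂ => hC s0 ns N q.1.1.1 (F q.1) q.2) (Set.univ ×ˢ St s) := by
  unfold hC
  refine ContinuousOn.mul ?_ hF
  refine (continuous_const.add ?_).continuousOn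
  exact (c4_db_joint s0 ns N).comp
    ((continuous_fst.comp (continuous_subtype_val.comp continuous_fst)).prodMk continuous_snd)

theorem c4_kap_cont (h2 : ST_C2) {s0 : ℝ} {ns : ℕ} (hs : 0 < s0) (hs1 : s0 ≤ 1) (hn : 1 ≤ ns)
    {κ : ℂ → ℂ} (h : HB s0 κ) (N : ℕ) :
    ContinuousOn (fun q : C4X × ℂ => kapN s0 ns q.1.1.1 (fun z => κ (z - q.1.1.2)) N q.2)
      (Set.univ ×ˢ St (sC s0 N)) := by
  induction N with
  | zero =>
    have e : sC s0 0 = s0 := by unfold sC; ring
    rw [e]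
    show ContinuousOn (fun q : C4X × ℂ => κ (q.2 - q.1.1.2)) (Set.univ ×ˢ St s0)
    refine h.hol.continuousOn.comp (Continuous.continuousOn ?_) ?_
    · exact continuous_snd.sub (Complex.continuous_ofReal.comp
        (continuous_snd.comp (continuous_subtype_val.comp continuous_fst)))
    · intro q hq
      have hq' : |q.2.im| < s0 := hq.2
      show |(q.2 - (q.1.1.2 : ℂ)).im| < s0
      simpa using hq'
  | succ N ih =>
    have hG := c4_h_joint (s0 := s0) (ns := ns) (N := N)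
      (F := fun x : C4X => kapN s0 ns x.1.1 (fun z => κ (z - x.1.2)) N) ih
    have hR := c4_real_cont (c4_sC_pos hs N)
      (F := fun x : C4X => hC s0 ns N x.1.1 (kapN s0 ns x.1.1 (fun z => κ (z - x.1.2)) N)) hG
    have hPl : Continuous fun q : C4X × ℂ =>
        PlC (nC ns N) (hC s0 ns N q.1.1.1 (kapN s0 ns q.1.1.1 (fun z => κ (z - q.1.1.2)) N)) q.2 := by
      unfold PlC
      refine continuous_finsetSum _ fun l _ => ?_
      refine ((c4_fc_cont (F := fun x : C4X => hC s0 ns N x.1.1 (kapN s0 ns x.1.1 (fun z => κ (z - x.1.2)) N))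
        hR l).comp continuous_fst).mul ?_
      fun_prop
    have hI := c4_inv_cont h2 hs hs1 hn N
    have hmap : Set.MapsTo (fun q : C4X × ℂ => (q.1, CinvC s0 ns N q.1.1.1 q.2))
        (Set.univ ×ˢ St (sC s0 (N + 1))) (Set.univ ×ˢ St (sC s0 N)) := by
      intro q hq
      have h1 := (h2 s0 ns N hs hs1 hn _ q.1.2.1).2.2.2.2.2.2.1 _ hq.2
      exact ⟨Set.mem_univ _, c4_mono (by linarith [c4_gam_pos hs N]) h1.1⟩
    have hI2 : ContinuousOn (fun q : C4X × ℂ => (q.1, CinvC s0 ns N q.1.1.1 q.2))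
        (Set.univ ×ˢ St (sC s0 (N + 1))) := continuous_fst.continuousOn.prodMk hI
    exact (hG.comp hI2 hmap).sub (hPl.comp_continuousOn hI2)

/-- C4 -/
theorem st_C4 (h2 : ST_C2) (h3 : ST_C3) : ST_C4 := by
  intro s0 ns hs hs1 hn
  refine ⟨?_, ?_, ?_, ?_, ?_⟩
  · intro th hth κ κ' c h h' N j
    have hl := c4_kap_lin h3 hs hs1 hn hth h h' c N
    have hk := c4_HB_cont (c4_sC_pos hs N) (c4_kap_HB h3 hs hs1 hn hth h N)
    have hk' := c4_HB_cont (c4_sC_pos hs N) (c4_kap_HB h3 hs hs1 hn hth h' N)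
    constructor
    · unfold BC
      rw [hl]
      have e : hC s0 ns N th (fun z => c * kapN s0 ns th κ N z + kapN s0 ns th κ' N z)
          = fun z => c * hC s0 ns N th (kapN s0 ns th κ N) z + hC s0 ns N th (kapN s0 ns th κ' N) z := by
        funext z
        unfold hC
        ring
      rw [e]
      exact c4_cf_lin (c4_h_cont hk) (c4_h_cont hk') c
    · unfold dBC
      rw [hl]
      have e : (fun z => (delC s0 ns N : ℂ) * deriv (phiC s0 N j) z *
            (c * kapN s0 ns th κ N z + kapN s0 ns th κ' N z))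
          = fun z => c * ((delC s0 ns N : ℂ) * deriv (phiC s0 N j) z * kapN s0 ns th κ N z)
            + (delC s0 ns N : ℂ) * deriv (phiC s0 N j) z * kapN s0 ns th κ' N z := by
        funext z
        ring
      have hd : Continuous fun x : ℝ => (delC s0 ns N : ℂ) * deriv (phiC s0 N j) (x : ℂ) :=
        continuous_const.mul ((c4_dphi_cont s0 N j).comp Complex.continuous_ofReal)
      show cfC s0 ns N j (fun z => (delC s0 ns N : ℂ) * deriv (phiC s0 N j) z *
            (c * kapN s0 ns th κ N z + kapN s0 ns th κ' N z)) = _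
      rw [e]
      exact c4_cf_lin (h := fun z => (delC s0 ns N : ℂ) * deriv (phiC s0 N j) z * kapN s0 ns th κ N z)
        (h' := fun z => (delC s0 ns N : ℂ) * deriv (phiC s0 N j) z * kapN s0 ns th κ' N z)
        (hd.mul hk) (hd.mul hk') c
  · intro th hth κ κ' h hκ N j
    have hl := c4_kap_loc h2 hs hs1 hn hth hκ N
    constructor
    · unfold BC
      refine c4_cf_congr fun x => ?_
      unfold hC
      rw [hl _ (c4_real_mem (c4_sC_pos hs N) x)]
    · unfold dBC
      refine c4_cf_congr fun x => ?_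
      rw [hl _ (c4_real_mem (c4_sC_pos hs N) x)]
  · intro κ h N j
    have hk := c4_kap_cont h2 hs hs1 hn h N
    constructor
    · rw [continuousOn_iff_continuous_domRestrict]
      have hG := c4_h_joint (s0 := s0) (ns := ns) (N := N)
        (F := fun x : C4X => kapN s0 ns x.1.1 (fun z => κ (z - x.1.2)) N) hk
      have hR := c4_real_cont (c4_sC_pos hs N)
        (F := fun x : C4X => hC s0 ns N x.1.1 (kapN s0 ns x.1.1 (fun z => κ (z - x.1.2)) N)) hG
      exact c4_cf_cont (s0 := s0) (ns := ns) (N := N) (j := j)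
        (F := fun x : C4X => hC s0 ns N x.1.1 (kapN s0 ns x.1.1 (fun z => κ (z - x.1.2)) N)) hR
    · rw [continuousOn_iff_continuous_domRestrict]
      have hR := c4_real_cont (c4_sC_pos hs N)
        (F := fun x : C4X => kapN s0 ns x.1.1 (fun z => κ (z - x.1.2)) N) hk
      have hd : Continuous fun q : C4X × ℝ => (delC s0 ns N : ℂ) * deriv (phiC s0 N j) (q.2 : ℂ) :=
        continuous_const.mul ((c4_dphi_cont s0 N j).comp (Complex.continuous_ofReal.comp continuous_snd))
      exact c4_cf_cont (s0 := s0) (ns := ns) (N := N) (j := j)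
        (F := fun x : C4X => fun z => (delC s0 ns N : ℂ) * deriv (phiC s0 N j) z *
          kapN s0 ns x.1.1 (fun z => κ (z - x.1.2)) N z) (hd.mul hR)
  · intro κ N th th' h
    exact c4_tri s0 ns κ N th th' h
  · intro κ h N j hj th hth t
    -- replace `th` by a parameter in the cube
    let th0 : ℕ × ℤ → ℝ := fun i => if i.1 < N then th i else 0
    have hth0 : th0 ∈ Cu := by
      intro i
      by_cases hi : i.1 < N
      · simp only [th0, if_pos hi]
        exact hth i.1 hi i.2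
      · simp only [th0, if_neg hi]
        simp
    have hk0 : kapN s0 ns th κ N = kapN s0 ns th0 κ N :=
      c4_tri s0 ns κ N th th0 fun M hM i => by simp only [th0, if_pos hM]
    have hkt : ∀ r : ℝ, kapN s0 ns (Function.update th (N, j) r) κ N = kapN s0 ns th κ N := fun r =>
      c4_tri s0 ns κ N _ th fun M hM i => by
        rw [Function.update_of_ne]
        intro hc
        have := congrArg Prod.fst hc
        simp only at this
        omega
    have hk : Continuous fun x : ℝ => kapN s0 ns th κ N x := by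
      rw [hk0]
      exact c4_HB_cont (c4_sC_pos hs N) (c4_kap_HB h3 hs hs1 hn hth0 h N)
    have hdb : ∀ (r : ℝ) (z : ℂ), deriv (bC s0 ns N (Function.update th (N, j) r)) z
        = deriv (bC s0 ns N (Function.update th (N, j) 0)) z + r * ((delC s0 ns N : ℂ) * deriv (phiC s0 N j) z) := by
      intro r z
      rw [c4_b_deriv, c4_b_deriv]
      have e : ∀ u : ℝ, ∑ i ∈ frC ns N, (Function.update th (N, j) u (N, i) : ℂ) * deriv (phiC s0 N i) z
          = (u : ℂ) * deriv (phiC s0 N j) z + ∑ i ∈ (frC ns N).erase j, (th (N, i) : ℂ) * deriv (phiC s0 N i) z := by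
        intro u
        rw [← Finset.add_sum_erase _ _ hj, Function.update_self]
        congr 1
        refine Finset.sum_congr rfl fun i hi => ?_
        rw [Function.update_of_ne]
        intro hc
        exact (Finset.ne_of_mem_erase hi) (congrArg Prod.snd hc)
      rw [e r, e 0]
      push_cast
      ring
    unfold BC dBC
    rw [hkt t, hkt 0]
    have e1 : hC s0 ns N (Function.update th (N, j) t) (kapN s0 ns th κ N)
        = fun z => (t : ℂ) * ((delC s0 ns N : ℂ) * deriv (phiC s0 N j) z * kapN s0 ns th κ N z)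
          + hC s0 ns N (Function.update th (N, j) 0) (kapN s0 ns th κ N) z := by
      funext z
      unfold hC
      rw [hdb t z]
      ring
    have hd : Continuous fun x : ℝ => (delC s0 ns N : ℂ) * deriv (phiC s0 N j) (x : ℂ) :=
      continuous_const.mul ((c4_dphi_cont s0 N j).comp Complex.continuous_ofReal)
    rw [e1, c4_cf_lin (h := fun z => (delC s0 ns N : ℂ) * deriv (phiC s0 N j) z * kapN s0 ns th κ N z)
      (hd.mul hk) (c4_h_cont hk) (t : ℂ)]
    ring

end

end Pool.Agent.Helper67.DO
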