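import Pool.Agent.Helper67.DO.StmtsD

/-!
# MP_d07457_gt, module D5

First part of (4.1): the smoothed cochains `C_j` are well defined, bounded, uniformly continuous, right
invariant and invariant under real translations of the entries.
-/

namespace Pool.Agent.Helper67.DO

open scoped BigOperators Real Topology
open MeasureTheory

noncomputable section

/-! ### strips -/

theorem d5_St_open (s : ℝ) : IsOpen (St s) := by
  have h : St s = (fun z : ℂ => |z.im|) ⁻¹' Set.Iio s := rfl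
  rw [h]
  exact isOpen_Iio.preimage Complex.continuous_im.abs

theorem d5_St_conv (s : ℝ) : Convex ℝ (St s) := by
  intro z hz w hw a b ha hb hab
  have hz' : |z.im| < s := hz
  have hw' : |w.im| < s := hw
  have e : (a • z + b • w).im = a * z.im + b * w.im := by simp
  show |(a • z + b • w).im| < s
  rw [e]
  rw [abs_lt] at hz' hw' ⊢
  rcases ha.eq_or_lt with h0 | h0
  · have hb1 : b = 1 := by linarith
    subst hb1
    rw [← h0]
    constructor <;> linarith [hw'.1, hw'.2]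
  · have h1 := mul_lt_mul_of_pos_left hz'.1 h0
    have h2 := mul_lt_mul_of_pos_left hz'.2 h0
    have h3 := mul_le_mul_of_nonneg_left hw'.1.le hb
    have h4 := mul_le_mul_of_nonneg_left hw'.2.le hb
    have e1 : a * s + b * s = s := by rw [← add_mul, hab, one_mul]
    constructor
    · nlinarith
    · nlinarith

theorem d5_real_mem {s : ℝ} (hs : 0 < s) (x : ℝ) : (x : ℂ) ∈ St s := by
  show |((x : ℂ)).im| < s
  simpa using hs

theorem d5_sub_mem {s : ℝ} {z : ℂ} (hz : z ∈ St s) (t : ℝ) : z - (t : ℂ) ∈ St s := by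
  have hz' : |z.im| < s := hz
  show |(z - (t : ℂ)).im| < s
  simpa using hz'

theorem d5_add_int_mem {s : ℝ} {z : ℂ} (hz : z ∈ St s) (m : ℤ) : z + (m : ℂ) ∈ St s := by
  have hz' : |z.im| < s := hz
  show |(z + (m : ℂ)).im| < s
  simpa using hz'

theorem d5_mono {s s' : ℝ} (h : s ≤ s') : St s ⊆ St s' := fun z hz => lt_of_lt_of_le (show |z.im| < s from hz) h

/-- identity theorem on a strip -/
theorem d5_ident {s : ℝ} (hs : 0 < s) {f g : ℂ → ℂ} (hf : DifferentiableOn ℂ f (St s))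
    (hg : DifferentiableOn ℂ g (St s)) (h : ∀ x : ℝ, f x = g x) : ∀ z ∈ St s, f z = g z := by
  have h1 : AnalyticOnNhd ℂ f (St s) := hf.analyticOnNhd (d5_St_open s)
  have h2 : AnalyticOnNhd ℂ g (St s) := hg.analyticOnNhd (d5_St_open s)
  have h3 : Filter.Tendsto (fun n : ℕ => (((1 : ℝ) / ((n : ℝ) + 1) : ℝ) : ℂ)) Filter.atTop (𝓝[≠] ((0 : ℝ) : ℂ)) := by
    rw [tendsto_nhdsWithin_iff]
    refine ⟨(Complex.continuous_ofReal.tendsto 0).comp tendsto_one_div_add_atTop_nhds_zero_nat, ?_⟩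
    refine Filter.Eventually.of_forall fun n => ?_
    have hp : (0 : ℝ) < 1 / ((n : ℝ) + 1) := by positivity
    show (((1 : ℝ) / ((n : ℝ) + 1) : ℝ) : ℂ) ≠ ((0 : ℝ) : ℂ)
    intro hc
    exact hp.ne' (Complex.ofReal_injective hc)
  have h4 : ∃ᶠ z in 𝓝[≠] ((0 : ℝ) : ℂ), f z = g z :=
    h3.frequently (Filter.Eventually.of_forall fun n => h _).frequently
  exact fun z hz => h1.eqOn_of_preconnected_of_frequently_eq h2 (d5_St_conv s).isPreconnected
    (d5_real_mem hs 0) h4 hz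

/-- integer periodicity on a strip -/
theorem d5_per_int {s : ℝ} {κ : ℂ → ℂ} (h : ∀ z ∈ St s, κ (z + 1) = κ z) (m : ℤ) :
    ∀ z ∈ St s, κ (z + (m : ℂ)) = κ z := by
  induction m using Int.induction_on with
  | zero => intro z hz; simp
  | succ i ih =>
    intro z hz
    have e : z + (((i : ℤ) + 1 : ℤ) : ℂ) = (z + ((i : ℤ) : ℂ)) + 1 := by push_cast; ring
    rw [e, h _ (d5_add_int_mem hz _), ih z hz]
  | pred i ih =>
    intro z hz
    have e : (z + ((-(i : ℤ) - 1 : ℤ) : ℂ)) + 1 = z + ((-(i : ℤ) : ℤ) : ℂ) := by push_cast; ring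
    rw [← h _ (d5_add_int_mem hz _), e, ih z hz]

theorem d5_HB_shift {s : ℝ} {κ : ℂ → ℂ} (h : HB s κ) (t : ℝ) : HB s (fun z => κ (z - (t : ℂ))) where
  hol := h.hol.comp (by fun_prop) (fun z hz => d5_sub_mem hz t)
  per := by
    intro z hz
    have e : z + 1 - (t : ℂ) = (z - t) + 1 := by ring
    show κ (z + 1 - (t : ℂ)) = κ (z - t)
    rw [e, h.per _ (d5_sub_mem hz t)]
  bdd := by
    obtain ⟨B, hB⟩ := h.bdd
    exact ⟨B, fun z hz => hB _ (d5_sub_mem hz t)⟩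

theorem d5_HB_sub {s : ℝ} {κ κ' : ℂ → ℂ} (h : HB s κ) (h' : HB s κ') : HB s (fun z => (-1) * κ' z + κ z) where
  hol := ((differentiableOn_const _).mul h'.hol).add h.hol
  per := by
    intro z hz
    show (-1) * κ' (z + 1) + κ (z + 1) = (-1) * κ' z + κ z
    rw [h.per z hz, h'.per z hz]
  bdd := by
    obtain ⟨B, hB⟩ := h.bdd
    obtain ⟨B', hB'⟩ := h'.bdd
    refine ⟨B' + B, fun z hz => (norm_add_le _ _).trans ?_⟩
    refine add_le_add ?_ (hB z hz)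
    rw [norm_mul, norm_neg, norm_one, one_mul]
    exact hB' z hz

/-- properties of the pulled back vector field -/
theorem d5_pull {n : ℕ} {ρ s M : ℝ} (I : Inv n ρ s M) {Φ v : ℝ → ℝ} {K : ℝ} (hΦ : Φ ∈ AA n) (hv : v ∈ VV n K) :
    HB s (pull ρ Φ v) ∧ (∀ z ∈ St s, ‖pull ρ Φ v z‖ ≤ M * K) ∧ ∀ x : ℝ, pull ρ Φ v (Φ x : ℂ) = (v x : ℂ) := by
  have hρ : St ρ ⊆ St (2 * ρ) := d5_mono (by linarith [I.pos.1, I.pos.2.1])
  have hb : ∀ z ∈ St s, ‖pull ρ Φ v z‖ ≤ M * K := fun z hz => (I.vbd K v hv _ (hρ (I.inv Φ hΦ z hz).1)).2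
  refine ⟨⟨?_, ?_, ⟨M * K, hb⟩⟩, hb, ?_⟩
  · exact (I.vhol K v hv).comp (I.invhol Φ hΦ) (fun z hz => hρ (I.inv Φ hΦ z hz).1)
  · intro z hz
    show four v (cinv ρ Φ (z + 1)) = four v (cinv ρ Φ z)
    rw [(I.inv Φ hΦ z hz).2.2]
    exact (I.vbd K v hv _ (hρ (I.inv Φ hΦ z hz).1)).1
  · intro x
    show four v (cinv ρ Φ (Φ x : ℂ)) = (v x : ℂ)
    rw [I.invreal Φ hΦ x, I.vreal K v hv x]

theorem d5_HB_mono {s s' : ℝ} (h : s ≤ s') {κ : ℂ → ℂ} (hk : HB s' κ) : HB s κ where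
  hol := hk.hol.mono (d5_mono h)
  per := fun z hz => hk.per z (d5_mono h hz)
  bdd := by
    obtain ⟨B, hB⟩ := hk.bdd
    exact ⟨B, fun z hz => hB z (d5_mono h hz)⟩

/-! ### the weights on `Ω × [0,1]` -/

section weights

variable {Ω : Type} [TopologicalSpace Ω] [MeasurableSpace Ω] {P : Measure Ω} [IsProbabilityMeasure P]
  {η : Ω → ℂ → ℂ} {w : Ω → (ℂ → ℂ) → ℂ} {Cw s0 : ℝ}

theorem d5_prob_Icc : IsProbabilityMeasure (volume.restrict (Set.Icc (0 : ℝ) 1)) :=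
  ⟨by rw [Measure.restrict_apply_univ, Real.volume_Icc]; norm_num⟩

theorem d5_prob_PP : IsProbabilityMeasure (PP P) := by
  have := d5_prob_Icc
  unfold PP
  infer_instance

theorem d5_ae_of {p : Ω × ℝ → Prop} (hm : MeasurableSet {x | p x}) (h : ∀ c : ℝ, ∀ᵐ ω ∂P, p (ω, c)) :
    ∀ᵐ x ∂(PP P), p x := by
  have := d5_prob_Icc
  unfold PP
  rw [Measure.ae_prod_iff_ae_ae hm]
  rw [Measure.ae_ae_comm (p := fun ω c => p (ω, c)) (by simpa using hm)]
  exact Filter.Eventually.of_forall h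

theorem d5_ww_meas (S : SMD s0 Ω P η w Cw) {κ : ℂ → ℂ} (h : HB s0 κ) : Measurable (fun ω => ww w ω κ) :=
  S.meas κ h

theorem d5_ww_ext (S : SMD s0 Ω P η w Cw) {κ κ' : ℂ → ℂ} (h : HB s0 κ) (h' : HB s0 κ')
    (he : ∀ z ∈ St s0, κ z = κ' z) : ∀ᵐ ω ∂(PP P), ww w ω κ = ww w ω κ' := by
  refine d5_ae_of (measurableSet_eq_fun (d5_ww_meas S h) (d5_ww_meas S h')) fun c => ?_
  exact S.ext _ _ (d5_HB_shift h c) fun z hz => he _ (d5_sub_mem hz c)

theorem d5_ww_sub (S : SMD s0 Ω P η w Cw) {κ κ' : ℂ → ℂ} (h : HB s0 κ) (h' : HB s0 κ') :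
    ∀ᵐ ω ∂(PP P), ww w ω κ - ww w ω κ' = ww w ω (fun z => (-1) * κ' z + κ z) := by
  refine d5_ae_of (measurableSet_eq_fun ((d5_ww_meas S h).sub (d5_ww_meas S h'))
    (d5_ww_meas S (d5_HB_sub h h'))) fun c => ?_
  filter_upwards [S.lin _ _ (-1) (d5_HB_shift h' c) (d5_HB_shift h c)] with ω hω
  have e : ww w (ω, c) (fun z => (-1) * κ' z + κ z) = -1 * ww w (ω, c) κ' + ww w (ω, c) κ := hω
  show ww w (ω, c) κ - ww w (ω, c) κ' = _
  rw [e]
  ring

theorem d5_ww_int (S : SMD s0 Ω P η w Cw) {κ : ℂ → ℂ} (h : HB s0 κ) {B : ℝ} (hB : ∀ z ∈ St s0, ‖κ z‖ ≤ B) :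
    Integrable (fun ω => ww w ω κ) (PP P) ∧ ∫ ω, ‖ww w ω κ‖ ∂(PP P) ≤ Cw * B := by
  have := d5_prob_Icc
  have hm := d5_ww_meas S h
  have hb : ∀ c : ℝ, ∫ ω, ‖ww w (ω, c) κ‖ ∂P ≤ Cw * B := fun c =>
    S.bdd _ B (d5_HB_shift h c) fun z hz => hB _ (d5_sub_mem hz c)
  have hs : StronglyMeasurable (fun c : ℝ => ∫ ω, ‖ww w (ω, c) κ‖ ∂P) :=
    (hm.norm.stronglyMeasurable).integral_prod_left'
  have hI : Integrable (fun c : ℝ => ∫ ω, ‖ww w (ω, c) κ‖ ∂P) (volume.restrict (Set.Icc (0 : ℝ) 1)) := by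
    refine Integrable.of_bound hs.aestronglyMeasurable (Cw * B) (Filter.Eventually.of_forall fun c => ?_)
    rw [Real.norm_of_nonneg (integral_nonneg fun _ => norm_nonneg _)]
    exact hb c
  have h1 : Integrable (fun ω => ww w ω κ) (P.prod (volume.restrict (Set.Icc (0 : ℝ) 1))) := by
    rw [integrable_prod_iff' hm.aestronglyMeasurable]
    exact ⟨Filter.Eventually.of_forall fun c => S.int _ (d5_HB_shift h c), hI⟩
  refine ⟨h1, ?_⟩
  show ∫ ω, ‖ww w ω κ‖ ∂(P.prod (volume.restrict (Set.Icc (0 : ℝ) 1))) ≤ Cw * B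
  rw [integral_prod_symm _ h1.norm]
  calc ∫ c, ∫ ω, ‖ww w (ω, c) κ‖ ∂P ∂(volume.restrict (Set.Icc (0 : ℝ) 1))
      ≤ ∫ _c, (Cw * B) ∂(volume.restrict (Set.Icc (0 : ℝ) 1)) :=
        integral_mono hI (integrable_const _) hb
    _ = Cw * B := by rw [integral_const, probReal_univ, one_smul]

theorem d5_Cw (S : SMD s0 Ω P η w Cw) : 0 ≤ Cw := by
  have h : HB s0 (fun _ => 0) := ⟨differentiableOn_const _, fun _ _ => rfl, ⟨0, fun _ _ => by simp⟩⟩
  have h1 := S.bdd _ 1 h fun z _ => by simp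
  have h2 : 0 ≤ ∫ ω, ‖w ω (fun _ => 0)‖ ∂P := integral_nonneg fun _ => norm_nonneg _
  linarith

end weights

/-! ### the left factors -/

section left

variable {Ω : Type} [TopologicalSpace Ω] {η : Ω → ℂ → ℂ} {s0 : ℝ}

/-- on the real line the admissible left factors are 2-Lipschitz -/
theorem d5_lip (hs : 0 < s0) {e : ℂ → ℂ} (A : Adm s0 e) (a b : ℝ) : |(e a).re - (e b).re| ≤ 2 * |a - b| := by
  have hsub : St (s0 / 8) ⊆ St (s0 / 4) := d5_mono (by linarith)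
  have hd : DifferentiableOn ℂ (fun z => e z - z) (St (s0 / 4)) := A.hol.sub differentiableOn_id
  have hdd : ∀ z ∈ St (s0 / 8), DifferentiableAt ℂ (fun z => e z - z) z := fun z hz =>
    hd.differentiableAt ((d5_St_open _).mem_nhds (hsub hz))
  have hder : ∀ z ∈ St (s0 / 8), ‖deriv (fun z => e z - z) z‖ ≤ 1 := by
    intro z hz
    have hz' : |z.im| < s0 / 8 := hz
    have hball : Metric.closedBall z (s0 / 16) ⊆ St (s0 / 4) := by
      intro u hu
      have h1 : ‖u - z‖ ≤ s0 / 16 := by rwa [← dist_eq_norm]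
      have h2 : |u.im - z.im| ≤ ‖u - z‖ := by
        have := Complex.abs_im_le_norm (u - z)
        simpa using this
      show |u.im| < s0 / 4
      have h3 : |u.im| ≤ |u.im - z.im| + |z.im| := by
        have := abs_add_le (u.im - z.im) z.im
        simpa using this
      linarith
    have h1 := Complex.norm_deriv_le_of_forall_mem_sphere_norm_le (c := z) (R := s0 / 16) (C := s0 / 256)
      (f := fun z => e z - z) (by positivity)
      (by
        refine DifferentiableOn.diffContOnCl ?_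
        refine hd.mono ?_
        rw [closure_ball z (by positivity)]
        exact hball)
      (fun u hu => A.near u (hball (Metric.sphere_subset_closedBall hu)))
    refine h1.trans ?_
    rw [div_le_one (by positivity)]
    linarith
  have h1 := (d5_St_conv (s0 / 8)).norm_image_sub_le_of_norm_deriv_le hdd hder
    (d5_real_mem (by positivity) b) (d5_real_mem (by positivity) a)
  have h2 : ‖(e a - a) - (e b - b)‖ ≤ |a - b| := by
    rw [one_mul] at h1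
    refine h1.trans (le_of_eq ?_)
    rw [← Complex.ofReal_sub, Complex.norm_real, Real.norm_eq_abs]
  have h3 : (e a).re - (e b).re = ((e a - a) - (e b - b)).re + (a - b) := by
    simp only [Complex.sub_re, Complex.ofReal_re]
    ring
  rw [h3]
  have h4 := Complex.abs_re_le_norm ((e a - a) - (e b - b))
  have h5 := abs_add_le (((e a - a) - (e b - b)).re) (a - b)
  linarith

theorem d5_gg_lip (hs : 0 < s0) (A : ∀ ω, Adm s0 (η ω)) (ω : Ω × ℝ) {Φ Ψ : ℝ → ℝ} {δ : ℝ}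
    (h : ∀ x, |Φ x - Ψ x| ≤ δ) (x : ℝ) : |gg η ω Φ x - gg η ω Ψ x| ≤ 2 * δ := by
  have h1 := d5_lip hs (A ω.1) (Φ x + ω.2) (Ψ x + ω.2)
  have e : Φ x + ω.2 - (Ψ x + ω.2) = Φ x - Ψ x := by ring
  rw [e] at h1
  exact h1.trans (mul_le_mul_of_nonneg_left (h x) (by norm_num))

theorem d5_gg_cont (hs : 0 < s0) (hc : ContinuousOn (fun x : Ω × ℂ => η x.1 x.2) (Set.univ ×ˢ St (s0 / 4)))
    {Φ : ℝ → ℝ} (hΦ : Continuous Φ) : Continuous (fun x : (Ω × ℝ) × ℝ => gg η x.1 Φ x.2) := by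
  have h1 : Continuous (fun x : (Ω × ℝ) × ℝ => ((x.1.1, ((Φ x.2 + x.1.2 : ℝ) : ℂ)) : Ω × ℂ)) := by
    refine (continuous_fst.comp continuous_fst).prodMk ?_
    refine Complex.continuous_ofReal.comp ?_
    exact (hΦ.comp continuous_snd).add (continuous_snd.comp continuous_fst)
  have h2 : Continuous (fun x : (Ω × ℝ) × ℝ => η x.1.1 ((Φ x.2 + x.1.2 : ℝ) : ℂ)) :=
    hc.comp_continuous h1 fun x => ⟨Set.mem_univ _, d5_real_mem (by positivity) _⟩
  exact Complex.continuous_re.comp h2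

theorem d5_gg_nhds (hs : 0 < s0) (hc : ContinuousOn (fun x : Ω × ℂ => η x.1 x.2) (Set.univ ×ˢ St (s0 / 4)))
    {Φ : ℝ → ℝ} (hΦ : Continuous Φ) (hl : ∀ ω : Ω × ℝ, IsLift (gg η ω Φ)) (ω0 : Ω × ℝ) {ε : ℝ} (hε : 0 < ε) :
    ∀ᶠ ω in 𝓝 ω0, ∀ x, |gg η ω Φ x - gg η ω0 Φ x| ≤ ε := by
  have hG := d5_gg_cont hs hc hΦ
  have h1 : ∀ᶠ ω in 𝓝 ω0, ∀ x ∈ Set.Icc (0 : ℝ) 1, |gg η ω Φ x - gg η ω0 Φ x| < ε := by
    refine isCompact_Icc.eventually_forall_of_forall_eventually fun x hx => ?_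
    have h2 : Continuous (fun z : (Ω × ℝ) × ℝ => |gg η z.1 Φ z.2 - gg η ω0 Φ z.2|) :=
      (hG.sub (hG.comp (continuous_const.prodMk continuous_snd))).abs
    refine (isOpen_Iio.preimage h2).mem_nhds ?_
    show |gg η ω0 Φ x - gg η ω0 Φ x| < ε
    simpa using hε
  filter_upwards [h1] with ω hω x
  have e1 : x = Int.fract x + (⌊x⌋ : ℤ) := (Int.fract_add_floor x).symm
  have e2 : gg η ω Φ x - gg η ω0 Φ x = gg η ω Φ (Int.fract x) - gg η ω0 Φ (Int.fract x) := by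
    rw [e1, (hl ω).perInt, (hl ω0).perInt]
    simp
  rw [e2]
  exact (hω _ ⟨Int.fract_nonneg x, (Int.fract_lt_one x).le⟩).le

end left

/-- rotations of the unit interval -/
theorem d5_rot (t : ℝ) : ∃ e : ℝ → ℝ, MeasurePreserving e (volume.restrict (Set.Icc (0 : ℝ) 1))
    (volume.restrict (Set.Icc (0 : ℝ) 1)) ∧ ∀ c, ∃ m : ℤ, e c = c + t + m := by
  have h1 := UnitAddCircle.measurePreserving_mk 0
  have h2 : MeasurePreserving (fun x : UnitAddCircle => x + (t : UnitAddCircle)) volume volume :=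
    measurePreserving_add_right volume _
  have h3 := AddCircle.measurePreserving_equivIoc 1 (a := 0)
  have h4 : MeasurePreserving (Subtype.val : Set.Ioc (0 : ℝ) (0 + 1) → ℝ) (Measure.comap Subtype.val volume)
    (volume.restrict (Set.Ioc 0 (0 + 1))) := measurePreserving_subtype_coe measurableSet_Ioc
  have h5 := h4.comp (h3.comp (h2.comp h1))
  have h6 : volume.restrict (Set.Icc (0 : ℝ) 1) = volume.restrict (Set.Ioc (0 : ℝ) (0 + 1)) := by
    rw [zero_add]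
    exact Measure.restrict_congr_set Ioc_ae_eq_Icc.symm
  rw [h6]
  refine ⟨_, h5, fun c => ?_⟩
  have h7 : (((AddCircle.equivIoc 1 0 ((c : UnitAddCircle) + (t : UnitAddCircle)) : ℝ) : ℝ) : UnitAddCircle)
      = ((c + t : ℝ) : UnitAddCircle) := by
    have := (AddCircle.equivIoc (1 : ℝ) 0).symm_apply_apply ((c : UnitAddCircle) + (t : UnitAddCircle))
    rw [AddCircle.coe_add]
    exact this
  have h8 : (((AddCircle.equivIoc 1 0 ((c : UnitAddCircle) + (t : UnitAddCircle)) : ℝ) - (c + t) : ℝ) : UnitAddCircle)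
      = 0 := by
    rw [AddCircle.coe_sub, h7, sub_self]
  obtain ⟨k, hk⟩ := (AddCircle.coe_eq_zero_iff 1).1 h8
  refine ⟨k, ?_⟩
  show (AddCircle.equivIoc 1 0 ((c : UnitAddCircle) + (t : UnitAddCircle)) : ℝ) = c + t + k
  rw [zsmul_one] at hk
  linarith

/-! ### level cochains are bounded -/

theorem d5_subseq (h3 : ST_D3) {n : ℕ} (hn : 1 ≤ n) (Y : ℕ → Sq)
    (hY : ∀ m k, Y m k ∈ AA n ∧ 0 ≤ Y m k 0 ∧ Y m k 0 ≤ 1) (q : ℕ) :
    ∃ φ : ℕ → ℕ, StrictMono φ ∧ ∀ k < q, ∃ Φ ∈ AA n, ∀ ε : ℝ, 0 < ε → ∃ m0, ∀ m, m0 ≤ m → ∀ x, |Y (φ m) k x - Φ x| ≤ ε := by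
  induction q with
  | zero => exact ⟨id, strictMono_id, fun k hk => absurd hk (Nat.not_lt_zero _)⟩
  | succ q ih =>
    obtain ⟨φ, hφ, h⟩ := ih
    obtain ⟨Φ, hΦ, ψ, hψ, hc⟩ := h3.2.2 n hn (fun m => Y (φ m) q) (fun m => hY _ _)
    refine ⟨φ ∘ ψ, hφ.comp hψ, fun k hk => ?_⟩
    rcases Nat.lt_succ_iff_lt_or_eq.1 hk with h' | h'
    · obtain ⟨Φ', hΦ', hc'⟩ := h k h'
      refine ⟨Φ', hΦ', fun ε hε => ?_⟩
      obtain ⟨m0, hm0⟩ := hc' ε hε
      exact ⟨m0, fun m hm x => hm0 (ψ m) (hm.trans (hψ.id_le m)) x⟩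
    · subst h'
      exact ⟨Φ, hΦ, hc⟩

theorem d5_bdd (h2 : ST_D2) (h3 : ST_D3) {n p : ℕ} (hn : 1 ≤ n) {C : Sq → ℂ} (L : LC n p C) :
    ∃ B : ℝ, 0 ≤ B ∧ ∀ y : Sq, (∀ k, y k ∈ AA n) → ‖C y‖ ≤ B := by
  by_contra hcon
  push Not at hcon
  choose Y hY hYB using fun m : ℕ => hcon (m : ℝ) (Nat.cast_nonneg m)
  have hZ : ∀ m k, (fun x => Y m k x + ((-⌊Y m k 0⌋ : ℤ) : ℝ)) ∈ AA n ∧
      0 ≤ Y m k 0 + ((-⌊Y m k 0⌋ : ℤ) : ℝ) ∧ Y m k 0 + ((-⌊Y m k 0⌋ : ℤ) : ℝ) ≤ 1 := by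
    intro m k
    refine ⟨(h2.2.2.2.2.1 n hn _ (hY m k) _).1, ?_, ?_⟩
    · push_cast
      linarith [Int.floor_le (Y m k 0)]
    · push_cast
      linarith [Int.lt_floor_add_one (Y m k 0)]
  obtain ⟨φ, hφ, hlim⟩ := d5_subseq h3 hn (fun m k x => Y m k x + ((-⌊Y m k 0⌋ : ℤ) : ℝ)) hZ (p + 1)
  choose! Φ hΦ hΦl using hlim
  obtain ⟨δ, hδ, huc⟩ := L.uc 1 one_pos
  have hmem : ∀ k, (if k < p + 1 then Φ k else Y 0 k) ∈ AA n := by
    intro k
    by_cases hk : k < p + 1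
    · rw [if_pos hk]; exact hΦ k hk
    · rw [if_neg hk]; exact hY 0 k
  have hev : ∀ᶠ m in Filter.atTop, ∀ k ∈ Finset.range (p + 1), ∀ x,
      |(Y (φ m) k x + ((-⌊Y (φ m) k 0⌋ : ℤ) : ℝ)) - Φ k x| ≤ δ := by
    rw [Filter.eventually_all_finset]
    intro k hk
    obtain ⟨m0, hm0⟩ := hΦl k (Finset.mem_range.1 hk) δ hδ
    exact Filter.eventually_atTop.2 ⟨m0, hm0⟩
  obtain ⟨m1, hm1⟩ := exists_nat_gt (1 + ‖C (fun k => if k < p + 1 then Φ k else Y 0 k)‖)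
  obtain ⟨m, hm, hmm⟩ := (hev.and (Filter.eventually_ge_atTop m1)).exists
  have hc := huc (fun k x => Y (φ m) k x + ((-⌊Y (φ m) k 0⌋ : ℤ) : ℝ)) (fun k => if k < p + 1 then Φ k else Y 0 k)
    (fun k => (hZ (φ m) k).1) hmem (by
      intro k hk x
      have hk' : k < p + 1 := Nat.lt_succ_of_le hk
      show |(Y (φ m) k x + ((-⌊Y (φ m) k 0⌋ : ℤ) : ℝ)) - (if k < p + 1 then Φ k else Y 0 k) x| ≤ δ
      rw [if_pos hk']
      exact hm k (Finset.mem_range.2 hk') x)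
  rw [L.zinv (Y (φ m)) (fun k => -⌊Y (φ m) k 0⌋) (hY (φ m))] at hc
  have h4 := hYB (φ m)
  have h5 : (m1 : ℝ) ≤ (φ m : ℝ) := by exact_mod_cast hmm.trans (hφ.id_le m)
  have h6 := norm_le_norm_add_norm_sub' (C (Y (φ m))) (C (fun k => if k < p + 1 then Φ k else Y 0 k))
  linarith

/-! ### the integrand -/

/-- the random argument of `C` -/
def d5Y {Ω : Type} (η : Ω → ℂ → ℂ) (p : ℕ) (y : Sq) (ω : Fin (p + 1) → Ω × ℝ) : Sq :=
  fun k => if h : k < p + 1 then gg η (ω ⟨k, h⟩) (y k) else y k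

/-- the factors -/
def d5F {Ω : Type} (w : Ω → (ℂ → ℂ) → ℂ) (ρ : ℝ) (j : ℕ) (y v : Sq) (b : ℕ) (ω : Ω × ℝ) : ℂ :=
  if b < j then ww w ω (pull ρ (y b) (v b)) else 1

theorem d5_prod_sub {ι : Type*} [DecidableEq ι] (s : Finset ι) (x y : ι → ℂ) :
    ‖∏ i ∈ s, x i - ∏ i ∈ s, y i‖ ≤ ∑ c ∈ s, ∏ b ∈ s, (if b = c then ‖x b - y b‖ else ‖x b‖ + ‖y b‖) := by
  induction s using Finset.induction_on with
  | empty => simp
  | insert a s ha ih =>
    rw [Finset.prod_insert ha, Finset.prod_insert ha, Finset.sum_insert ha, Finset.prod_insert ha]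
    have e1 : x a * ∏ i ∈ s, x i - y a * ∏ i ∈ s, y i
        = (x a - y a) * ∏ i ∈ s, x i + y a * (∏ i ∈ s, x i - ∏ i ∈ s, y i) := by ring
    rw [e1, if_pos rfl]
    refine (norm_add_le _ _).trans (add_le_add ?_ ?_)
    · rw [norm_mul, norm_prod]
      refine mul_le_mul_of_nonneg_left ?_ (norm_nonneg _)
      refine Finset.prod_le_prod (fun _ _ => norm_nonneg _) fun b hb => ?_
      rw [if_neg (fun h : b = a => ha (h ▸ hb))]
      linarith [norm_nonneg (y b)]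
    · rw [norm_mul]
      have e2 : ∑ c ∈ s, ∏ b ∈ insert a s, (if b = c then ‖x b - y b‖ else ‖x b‖ + ‖y b‖)
          = (‖x a‖ + ‖y a‖) * ∑ c ∈ s, ∏ b ∈ s, (if b = c then ‖x b - y b‖ else ‖x b‖ + ‖y b‖) := by
        rw [Finset.mul_sum]
        refine Finset.sum_congr rfl fun c hc => ?_
        rw [Finset.prod_insert ha, if_neg (fun h : a = c => ha (h ▸ hc))]
      rw [e2]
      refine mul_le_mul ?_ ih (norm_nonneg _) (by positivity)
      linarith [norm_nonneg (x a)]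

section main

variable {n n' p : ℕ} {ρ s M s0 : ℝ} {Ω : Type} [TopologicalSpace Ω] [CompactSpace Ω] [T2Space Ω]
  [SecondCountableTopology Ω] [MeasurableSpace Ω] [BorelSpace Ω] {P : Measure Ω} [IsProbabilityMeasure P]
  {η : Ω → ℂ → ℂ} {w : Ω → (ℂ → ℂ) → ℂ} {Cw : ℝ}

theorem d5_HBs (X : Ctx n n' ρ s M s0 Ω P η w Cw) {Φ v : ℝ → ℝ} {K : ℝ} (hΦ : Φ ∈ AA n) (hv : v ∈ VV n K) :
    HB s0 (pull ρ Φ v) := d5_HB_mono X.s0lt.le (d5_pull X.inv hΦ hv).1

theorem d5_gg_mem (X : Ctx n n' ρ s M s0 Ω P η w Cw) {Φ : ℝ → ℝ} (hΦ : Φ ∈ AA n) (ω : Ω × ℝ) :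
    gg η ω Φ ∈ AA n' := X.good.2.2 (η ω.1) (X.smd.adm ω.1) Φ hΦ ω.2

theorem d5_Y_mem (h2 : ST_D2) (X : Ctx n n' ρ s M s0 Ω P η w Cw) {y : Sq} (hy : ∀ k, y k ∈ AA n)
    (ω : Fin (p + 1) → Ω × ℝ) (k : ℕ) : d5Y η p y ω k ∈ AA n' := by
  unfold d5Y
  by_cases hk : k < p + 1
  · rw [dif_pos hk]
    exact d5_gg_mem X (hy k) _
  · rw [dif_neg hk]
    exact h2.1 n n' X.good.1 X.good.2.1 (hy k)

theorem d5_CY_cont (h2 : ST_D2) (X : Ctx n n' ρ s M s0 Ω P η w Cw) {C : Sq → ℂ} (L : LC n' p C) {y : Sq}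
    (hy : ∀ k, y k ∈ AA n) : Continuous (fun ω : Fin (p + 1) → Ω × ℝ => C (d5Y η p y ω)) := by
  rw [Metric.continuous_iff']
  intro ω0 ε hε
  obtain ⟨δ, hδ, huc⟩ := L.uc (ε / 2) (by positivity)
  have h1 : ∀ k : Fin (p + 1), ∀ᶠ ω : Fin (p + 1) → Ω × ℝ in 𝓝 ω0,
      ∀ x, |gg η (ω k) (y k) x - gg η (ω0 k) (y k) x| ≤ δ := by
    intro k
    have h3 := d5_gg_nhds X.s0pos X.smd.cont (hy k).1.cont (fun ω => (d5_gg_mem X (hy k) ω).1) (ω0 k) hδ
    exact ((continuous_apply k).tendsto ω0).eventually h3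
  filter_upwards [Filter.eventually_all.2 h1] with ω hω
  rw [dist_eq_norm]
  refine lt_of_le_of_lt (huc _ _ (d5_Y_mem h2 X hy ω) (d5_Y_mem h2 X hy ω0) ?_) (by linarith)
  intro k hk x
  have hk' : k < p + 1 := Nat.lt_succ_of_le hk
  have h4 := hω ⟨k, hk'⟩ x
  simpa only [d5Y, dif_pos hk'] using h4

theorem d5_F_int (X : Ctx n n' ρ s M s0 Ω P η w Cw) {y v : Sq} {K : ℝ} (hy : ∀ k, y k ∈ AA n)
    (hv : ∀ b, v b ∈ VV n K) (j b : ℕ) :
    Integrable (d5F w ρ j y v b) (PP P) ∧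
      ∫ ω, ‖d5F w ρ j y v b ω‖ ∂(PP P) ≤ (if b < j then |Cw * (M * K)| else 1) := by
  have hP : IsProbabilityMeasure (PP P) := d5_prob_PP
  by_cases hb : b < j
  · have h1 := d5_ww_int X.smd (d5_HBs X (hy b) (hv b))
      (fun z hz => (d5_pull X.inv (hy b) (hv b)).2.1 z (d5_mono X.s0lt.le hz))
    have e : d5F w ρ j y v b = fun ω => ww w ω (pull ρ (y b) (v b)) := by
      funext ω
      simp only [d5F, if_pos hb]
    rw [e, if_pos hb]
    exact ⟨h1.1, h1.2.trans (le_abs_self _)⟩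
  · have e : d5F w ρ j y v b = fun _ => (1 : ℂ) := by
      funext ω
      simp only [d5F, if_neg hb]
    rw [e, if_neg hb]
    refine ⟨integrable_const _, ?_⟩
    show ∫ _ω, ‖(1 : ℂ)‖ ∂(PP P) ≤ 1
    rw [norm_one, integral_const, probReal_univ, one_smul]

theorem d5_meas (h2 : ST_D2) (X : Ctx n n' ρ s M s0 Ω P η w Cw) {C : Sq → ℂ} (L : LC n' p C) {y v : Sq} {K : ℝ}
    (hy : ∀ k, y k ∈ AA n) (hv : ∀ b, v b ∈ VV n K) {B : ℝ} (hB : ∀ y, (∀ k, y k ∈ AA n') → ‖C y‖ ≤ B) (j : ℕ) :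
    Integrable (fun ω : Fin (p + 1) → Ω × ℝ => C (d5Y η p y ω) * ∏ b : Fin (p + 1), d5F w ρ j y v b (ω b))
      (Measure.pi fun _ => PP P) := by
  have hP : IsProbabilityMeasure (PP P) := d5_prob_PP
  refine Integrable.bdd_mul (c := B) ?_ (d5_CY_cont h2 X L hy).aestronglyMeasurable
    (Filter.Eventually.of_forall fun ω => hB _ (d5_Y_mem h2 X hy ω))
  exact Integrable.fintype_prod (f := fun b : Fin (p + 1) => d5F w ρ j y v b) fun b => (d5_F_int X hy hv j b).1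

/-- second part: the bound -/
theorem d5_bound (h2 : ST_D2) (X : Ctx n n' ρ s M s0 Ω P η w Cw) {C : Sq → ℂ} {y v : Sq} {K : ℝ}
    (hy : ∀ k, y k ∈ AA n) (hv : ∀ b, v b ∈ VV n K) {B : ℝ} (hB : ∀ y, (∀ k, y k ∈ AA n') → ‖C y‖ ≤ B) (j : ℕ) :
    ‖CJ P η w ρ p C j y v‖ ≤ (∏ b : Fin (p + 1), (if (b : ℕ) < j then |Cw * (M * K)| else 1)) * B := by
  have hP : IsProbabilityMeasure (PP P) := d5_prob_PP
  have hB0 : 0 ≤ B := (norm_nonneg _).trans (hB y fun k => h2.1 n n' X.good.1 X.good.2.1 (hy k))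
  have hI : Integrable (fun ω : Fin (p + 1) → Ω × ℝ => ∏ b : Fin (p + 1), ‖d5F w ρ j y v b (ω b)‖)
      (Measure.pi fun _ => PP P) :=
    Integrable.fintype_prod (f := fun (b : Fin (p + 1)) ω => ‖d5F w ρ j y v b ω‖)
      fun b => (d5_F_int X hy hv j b).1.norm
  have h1 : ‖CJ P η w ρ p C j y v‖ ≤ ∫ ω : Fin (p + 1) → Ω × ℝ, B * ∏ b : Fin (p + 1), ‖d5F w ρ j y v b (ω b)‖
      ∂(Measure.pi fun _ => PP P) := by
    refine norm_integral_le_of_norm_le (hI.const_mul B) (Filter.Eventually.of_forall fun ω => ?_)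
    rw [norm_mul, norm_prod]
    exact mul_le_mul_of_nonneg_right (hB _ (d5_Y_mem h2 X hy ω)) (Finset.prod_nonneg fun _ _ => norm_nonneg _)
  refine h1.trans ?_
  rw [integral_const_mul, mul_comm]
  refine mul_le_mul_of_nonneg_right ?_ hB0
  rw [integral_fintype_prod_eq_prod (fun (b : Fin (p + 1)) ω => ‖d5F w ρ j y v b ω‖)]
  exact Finset.prod_le_prod (fun _ _ => integral_nonneg fun _ => norm_nonneg _)
    fun b _ => (d5_F_int X hy hv j b).2

/-- the difference of two factors -/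
theorem d5_F_sub (X : Ctx n n' ρ s M s0 Ω P η w Cw) {y y' v v' : Sq} {K : ℝ} (hy : ∀ k, y k ∈ AA n)
    (hy' : ∀ k, y' k ∈ AA n) (hv : ∀ b, v b ∈ VV n K) (hv' : ∀ b, v' b ∈ VV n K) (j b : ℕ) {δ : ℝ} (hδ : 0 ≤ δ)
    (h : b < j → ∀ z ∈ St s, ‖pull ρ (y b) (v b) z - pull ρ (y' b) (v' b) z‖ ≤ δ) :
    ∫ ω, ‖d5F w ρ j y v b ω - d5F w ρ j y' v' b ω‖ ∂(PP P) ≤ Cw * δ := by
  have hC := d5_Cw X.smd
  by_cases hb : b < j
  · have h1 := d5_HBs X (hy b) (hv b)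
    have h2 := d5_HBs X (hy' b) (hv' b)
    have h3 : ∫ ω, ‖d5F w ρ j y v b ω - d5F w ρ j y' v' b ω‖ ∂(PP P)
        = ∫ ω, ‖ww w ω (fun z => (-1) * pull ρ (y' b) (v' b) z + pull ρ (y b) (v b) z)‖ ∂(PP P) := by
      refine integral_congr_ae ?_
      filter_upwards [d5_ww_sub X.smd h1 h2] with ω hω
      simp only [d5F, if_pos hb]
      rw [hω]
    rw [h3]
    refine (d5_ww_int X.smd (d5_HB_sub h1 h2) (B := δ) fun z hz => ?_).2
    have e : (-1) * pull ρ (y' b) (v' b) z + pull ρ (y b) (v b) z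
        = pull ρ (y b) (v b) z - pull ρ (y' b) (v' b) z := by ring
    rw [e]
    exact h hb z (d5_mono X.s0lt.le hz)
  · simp only [d5F, if_neg hb, sub_self, norm_zero, integral_zero]
    positivity

/-- third part: a quantitative estimate for the difference -/
theorem d5_diff (h2 : ST_D2) (X : Ctx n n' ρ s M s0 Ω P η w Cw) {C : Sq → ℂ} (L : LC n' p C)
    {y y' v v' : Sq} {K : ℝ} (hy : ∀ k, y k ∈ AA n)
    (hy' : ∀ k, y' k ∈ AA n) (hv : ∀ b, v b ∈ VV n K) (hv' : ∀ b, v' b ∈ VV n K) {B : ℝ}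
    (hB : ∀ y, (∀ k, y k ∈ AA n') → ‖C y‖ ≤ B) (j : ℕ) {δ ε : ℝ} (hδ : 0 ≤ δ) (hε : 0 ≤ ε)
    (hF : ∀ b < j, ∀ z ∈ St s, ‖pull ρ (y b) (v b) z - pull ρ (y' b) (v' b) z‖ ≤ δ)
    (hCd : ∀ ω : Fin (p + 1) → Ω × ℝ, ‖C (d5Y η p y ω) - C (d5Y η p y' ω)‖ ≤ ε) :
    ‖CJ P η w ρ p C j y v - CJ P η w ρ p C j y' v'‖
      ≤ ε * (|Cw * (M * K)| + 1) ^ (p + 1) + B * ((p + 1) * ((Cw * δ) * (2 * (|Cw * (M * K)| + 1)) ^ (p + 1))) := by
  have hP : IsProbabilityMeasure (PP P) := d5_prob_PP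
  have hC0 := d5_Cw X.smd
  have hB0 : 0 ≤ B := (norm_nonneg _).trans (hB y fun k => h2.1 n n' X.good.1 X.good.2.1 (hy k))
  set A : ℝ := |Cw * (M * K)| + 1 with hA
  have hA1 : 1 ≤ A := by
    have := abs_nonneg (Cw * (M * K))
    linarith
  have hFA : ∀ (y v : Sq), (∀ k, y k ∈ AA n) → (∀ b, v b ∈ VV n K) → ∀ b : ℕ,
      ∫ ω, ‖d5F w ρ j y v b ω‖ ∂(PP P) ≤ A := by
    intro y v hy hv b
    refine (d5_F_int X hy hv j b).2.trans ?_
    by_cases hb : b < j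
    · rw [if_pos hb, hA]; linarith
    · rw [if_neg hb]; exact hA1
  have hI1 : Integrable (fun ω : Fin (p + 1) → Ω × ℝ => ∏ b : Fin (p + 1), ‖d5F w ρ j y v b (ω b)‖)
      (Measure.pi fun _ => PP P) :=
    Integrable.fintype_prod (f := fun (b : Fin (p + 1)) ω => ‖d5F w ρ j y v b ω‖)
      fun b => (d5_F_int X hy hv j b).1.norm
  let H : Fin (p + 1) → Fin (p + 1) → Ω × ℝ → ℝ := fun c b ω =>
    if b = c then ‖d5F w ρ j y v b ω - d5F w ρ j y' v' b ω‖ else ‖d5F w ρ j y v b ω‖ + ‖d5F w ρ j y' v' b ω‖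
  have hH : ∀ c b, Integrable (H c b) (PP P) := by
    intro c b
    by_cases hb : b = c
    · simp only [H, if_pos hb]
      exact ((d5_F_int X hy hv j b).1.sub (d5_F_int X hy' hv' j b).1).norm
    · simp only [H, if_neg hb]
      exact (d5_F_int X hy hv j b).1.norm.add (d5_F_int X hy' hv' j b).1.norm
  have hHb : ∀ c b, ∫ ω, H c b ω ∂(PP P) ≤ (if b = c then Cw * δ else 1) * (2 * A) := by
    intro c b
    by_cases hb : b = c
    · simp only [H, if_pos hb]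
      refine (d5_F_sub X hy hy' hv hv' j b hδ (hF b)).trans ?_
      have : 0 ≤ Cw * δ := mul_nonneg hC0 hδ
      nlinarith
    · simp only [H, if_neg hb]
      rw [integral_add (d5_F_int X hy hv j b).1.norm (d5_F_int X hy' hv' j b).1.norm, one_mul]
      linarith [hFA y v hy hv b, hFA y' v' hy' hv' b]
  have hI2 : ∀ c, Integrable (fun ω : Fin (p + 1) → Ω × ℝ => ∏ b : Fin (p + 1), H c b (ω b))
      (Measure.pi fun _ => PP P) := fun c => Integrable.fintype_prod (f := H c) fun b => hH c b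
  have hI3 : Integrable (fun ω : Fin (p + 1) → Ω × ℝ => ∑ c, ∏ b : Fin (p + 1), H c b (ω b))
      (Measure.pi fun _ => PP P) := integrable_finsetSum _ fun c _ => hI2 c
  have h1 : CJ P η w ρ p C j y v - CJ P η w ρ p C j y' v'
      = ∫ ω : Fin (p + 1) → Ω × ℝ, (C (d5Y η p y ω) * ∏ b : Fin (p + 1), d5F w ρ j y v b (ω b)
        - C (d5Y η p y' ω) * ∏ b : Fin (p + 1), d5F w ρ j y' v' b (ω b)) ∂(Measure.pi fun _ => PP P) :=
    (integral_sub (d5_meas h2 X L hy hv hB j) (d5_meas h2 X L hy' hv' hB j)).symm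
  rw [h1]
  have h3 : ‖∫ ω : Fin (p + 1) → Ω × ℝ, (C (d5Y η p y ω) * ∏ b : Fin (p + 1), d5F w ρ j y v b (ω b)
        - C (d5Y η p y' ω) * ∏ b : Fin (p + 1), d5F w ρ j y' v' b (ω b)) ∂(Measure.pi fun _ => PP P)‖
      ≤ ∫ ω : Fin (p + 1) → Ω × ℝ, (ε * ∏ b : Fin (p + 1), ‖d5F w ρ j y v b (ω b)‖
        + B * ∑ c, ∏ b : Fin (p + 1), H c b (ω b)) ∂(Measure.pi fun _ => PP P) := by
    refine norm_integral_le_of_norm_le ((hI1.const_mul ε).add (hI3.const_mul B))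
      (Filter.Eventually.of_forall fun ω => ?_)
    have e : C (d5Y η p y ω) * ∏ b : Fin (p + 1), d5F w ρ j y v b (ω b)
        - C (d5Y η p y' ω) * ∏ b : Fin (p + 1), d5F w ρ j y' v' b (ω b)
        = (C (d5Y η p y ω) - C (d5Y η p y' ω)) * ∏ b : Fin (p + 1), d5F w ρ j y v b (ω b)
          + C (d5Y η p y' ω) * (∏ b : Fin (p + 1), d5F w ρ j y v b (ω b)
            - ∏ b : Fin (p + 1), d5F w ρ j y' v' b (ω b)) := by ring
    rw [e]
    refine (norm_add_le _ _).trans (add_le_add ?_ ?_)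
    · rw [norm_mul, norm_prod]
      exact mul_le_mul_of_nonneg_right (hCd ω) (Finset.prod_nonneg fun _ _ => norm_nonneg _)
    · rw [norm_mul]
      exact mul_le_mul (hB _ (d5_Y_mem h2 X hy' ω))
        (d5_prod_sub Finset.univ (fun b : Fin (p + 1) => d5F w ρ j y v b (ω b))
          (fun b => d5F w ρ j y' v' b (ω b))) (norm_nonneg _) hB0
  refine h3.trans ?_
  rw [integral_add (hI1.const_mul ε) (hI3.const_mul B), integral_const_mul, integral_const_mul,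
    integral_finsetSum _ (fun c _ => hI2 c),
    integral_fintype_prod_eq_prod (fun (b : Fin (p + 1)) ω => ‖d5F w ρ j y v b ω‖)]
  refine add_le_add (mul_le_mul_of_nonneg_left ?_ hε) (mul_le_mul_of_nonneg_left ?_ hB0)
  · have h4 : ∏ b : Fin (p + 1), ∫ ω, ‖d5F w ρ j y v b ω‖ ∂(PP P) ≤ ∏ _b : Fin (p + 1), A :=
      Finset.prod_le_prod (fun _ _ => integral_nonneg fun _ => norm_nonneg _) fun b _ => hFA y v hy hv b
    simpa using h4
  · have h5 : ∀ c ∈ (Finset.univ : Finset (Fin (p + 1))),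
        ∫ ω : Fin (p + 1) → Ω × ℝ, ∏ b : Fin (p + 1), H c b (ω b) ∂(Measure.pi fun _ => PP P)
          ≤ Cw * δ * (2 * A) ^ (p + 1) := by
      intro c _
      rw [integral_fintype_prod_eq_prod (H c)]
      have h6 : ∏ b : Fin (p + 1), ∫ ω, H c b ω ∂(PP P)
          ≤ ∏ b : Fin (p + 1), ((if b = c then Cw * δ else 1) * (2 * A)) := by
        refine Finset.prod_le_prod (fun b _ => integral_nonneg fun ω => ?_) fun b _ => hHb c b
        by_cases hb : b = c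
        · simp only [H, if_pos hb]; exact norm_nonneg _
        · simp only [H, if_neg hb]; positivity
      refine h6.trans (le_of_eq ?_)
      rw [Finset.prod_mul_distrib, Finset.prod_ite_eq' Finset.univ c (fun _ => Cw * δ)]
      simp
    refine (Finset.sum_le_sum h5).trans (le_of_eq ?_)
    simp

/-- third part -/
theorem d5_uc (h2 : ST_D2) (h3 : ST_D3) (X : Ctx n n' ρ s M s0 Ω P η w Cw) {C : Sq → ℂ} (L : LC n' p C)
    {j : ℕ} (hj : j ≤ p) (K : ℝ) {ε : ℝ} (hε : 0 < ε) :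
    ∃ δ : ℝ, 0 < δ ∧ ∀ y y' v v' : Sq, (∀ k, y k ∈ AA n) → (∀ k, y' k ∈ AA n) →
    (∀ b, v b ∈ VV n K) → (∀ b, v' b ∈ VV n K) → (∀ k ≤ p, ∀ x, |y k x - y' k x| ≤ δ) →
    (∀ b < j, ∀ x, |v b x - v' b x| ≤ δ) → ‖CJ P η w ρ p C j y v - CJ P η w ρ p C j y' v'‖ ≤ ε := by
  have hn' : 1 ≤ n' := X.good.1.trans X.good.2.1
  obtain ⟨B, hB0, hB⟩ := d5_bdd h2 h3 hn' L
  have hC0 := d5_Cw X.smd
  set A : ℝ := |Cw * (M * K)| + 1 with hA
  have hA1 : 1 ≤ A := by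
    have := abs_nonneg (Cw * (M * K))
    linarith
  set D : ℝ := B * ((p + 1) * (Cw * (2 * A) ^ (p + 1))) with hD
  have hD0 : 0 ≤ D := by positivity
  obtain ⟨δ1, hδ1, huc⟩ := L.uc (ε / 2 / A ^ (p + 1)) (by positivity)
  obtain ⟨δ2, hδ2, hst⟩ := X.inv.stab K (ε / 2 / (D + 1)) (by positivity)
  refine ⟨min (δ1 / 2) δ2, lt_min (by positivity) hδ2, ?_⟩
  intro y y' v v' hy hy' hv hv' hyd hvd
  have h1 := d5_diff h2 X L hy hy' hv hv' hB j (δ := ε / 2 / (D + 1)) (ε := ε / 2 / A ^ (p + 1))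
    (by positivity) (by positivity)
    (by
      intro b hb z hz
      exact (hst _ (hy b) _ (hy' b) _ (hv b) _ (hv' b)
        (fun x => (hyd b (hb.le.trans hj) x).trans (min_le_right _ _))
        (fun x => (hvd b hb x).trans (min_le_right _ _))).1 z hz)
    (by
      intro ω
      refine huc _ _ (d5_Y_mem h2 X hy ω) (d5_Y_mem h2 X hy' ω) ?_
      intro k hk x
      have hk' : k < p + 1 := Nat.lt_succ_of_le hk
      have h4 := d5_gg_lip X.s0pos X.smd.adm (ω ⟨k, hk'⟩)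
        (fun x => (hyd k hk x).trans (min_le_left (δ1 / 2) δ2)) x
      have e : 2 * (δ1 / 2) = δ1 := by ring
      rw [e] at h4
      simpa only [d5Y, dif_pos hk'] using h4)
  refine h1.trans ?_
  rw [← hA]
  have e1 : ε / 2 / A ^ (p + 1) * A ^ (p + 1) = ε / 2 := by
    field_simp
  have e2 : B * ((p + 1) * (Cw * (ε / 2 / (D + 1)) * (2 * A) ^ (p + 1))) = ε / 2 * (D / (D + 1)) := by
    rw [hD]; ring
  rw [e1, e2]
  have h5 : D / (D + 1) ≤ 1 := by
    rw [div_le_one (by positivity)]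
    linarith
  nlinarith

/-- fourth part: right invariance -/
theorem d5_rinv (h2 : ST_D2) (X : Ctx n n' ρ s M s0 Ω P η w Cw) {C : Sq → ℂ} (L : LC n' p C)
    (j : ℕ) {y v : Sq} {g : ℝ → ℝ} {K : ℝ} (hg : IsLift g) (hy : ∀ k, y k ∈ AA n) (hv : ∀ b, v b ∈ VV n K)
    (hyg : ∀ k, (fun x => y k (g x)) ∈ AA n) (hvg : ∀ b, (fun x => v b (g x)) ∈ VV n K) :
    CJ P η w ρ p C j (fun k x => y k (g x)) (fun b x => v b (g x)) = CJ P η w ρ p C j y v := by
  have hP : IsProbabilityMeasure (PP P) := d5_prob_PP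
  have hpull : ∀ b, ∀ z ∈ St s, pull ρ (fun x => y b (g x)) (fun x => v b (g x)) z = pull ρ (y b) (v b) z := by
    intro b
    have h1 := d5_pull X.inv (hyg b) (hvg b)
    have h3 := d5_pull X.inv (hy b) (hv b)
    refine d5_ident X.inv.pos.1 h1.1.hol h3.1.hol fun x => ?_
    obtain ⟨t, ht⟩ := (hyg b).1.surj x
    have ht' : y b (g t) = x := ht
    have e1 := h1.2.2 t
    have e2 := h3.2.2 (g t)
    rw [ht'] at e2
    have e1' : pull ρ (fun x => y b (g x)) (fun x => v b (g x)) (x : ℂ) = (v b (g t) : ℂ) := by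
      have := e1
      simp only [ht'] at this
      exact this
    rw [e1', e2]
  have hae : ∀ b : Fin (p + 1), ∀ᵐ ω ∂(PP P),
      d5F w ρ j (fun k x => y k (g x)) (fun b x => v b (g x)) b ω = d5F w ρ j y v b ω := by
    intro b
    by_cases hb : (b : ℕ) < j
    · simp only [d5F, if_pos hb]
      exact d5_ww_ext X.smd (d5_HBs X (hyg b) (hvg b)) (d5_HBs X (hy b) (hv b))
        fun z hz => hpull b z (d5_mono X.s0lt.le hz)
    · refine Filter.Eventually.of_forall fun ω => ?_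
      simp only [d5F, if_neg hb]
  have hae2 : ∀ᵐ ω : Fin (p + 1) → Ω × ℝ ∂(Measure.pi fun _ => PP P), ∀ b : Fin (p + 1),
      d5F w ρ j (fun k x => y k (g x)) (fun b x => v b (g x)) b (ω b) = d5F w ρ j y v b (ω b) :=
    Filter.eventually_all.2 fun b =>
      (Measure.tendsto_eval_ae_ae (μ := fun _ : Fin (p + 1) => PP P) (i := b)).eventually (hae b)
  refine integral_congr_ae ?_
  filter_upwards [hae2] with ω hω
  have hCC : C (d5Y η p (fun k x => y k (g x)) ω) = C (d5Y η p y ω) := by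
    have e : d5Y η p (fun k x => y k (g x)) ω = fun k x => d5Y η p y ω k (g x) := by
      funext k x
      unfold d5Y
      by_cases hk : k < p + 1
      · simp only [dif_pos hk]; rfl
      · simp only [dif_neg hk]
    have h5 := L.rinv (d5Y η p y ω) g hg (d5_Y_mem h2 X hy ω) (by
      intro k
      have h6 := d5_Y_mem h2 X hyg ω k
      rw [e] at h6
      exact h6)
    rw [e, h5]
  show C (d5Y η p (fun k x => y k (g x)) ω) * ∏ b : Fin (p + 1),
      d5F w ρ j (fun k x => y k (g x)) (fun b x => v b (g x)) b (ω b)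
    = C (d5Y η p y ω) * ∏ b : Fin (p + 1), d5F w ρ j y v b (ω b)
  rw [hCC, Finset.prod_congr rfl fun b _ => hω b]

/-- fifth part: real translations -/
theorem d5_tinv (h2 : ST_D2) (X : Ctx n n' ρ s M s0 Ω P η w Cw) {C : Sq → ℂ} (L : LC n' p C)
    (j : ℕ) {y v : Sq} (t : ℕ → ℝ) {K : ℝ} (hy : ∀ k, y k ∈ AA n) (hv : ∀ b, v b ∈ VV n K) {B : ℝ}
    (hB : ∀ y, (∀ k, y k ∈ AA n') → ‖C y‖ ≤ B) :
    CJ P η w ρ p C j (fun k x => y k x + t k) v = CJ P η w ρ p C j y v := by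
  have hP : IsProbabilityMeasure (PP P) := d5_prob_PP
  have hPI := d5_prob_Icc
  have hyt : ∀ k, (fun x => y k x + t k) ∈ AA n := fun k => (h2.2.2.2.2.1 n X.good.1 _ (hy k) (t k)).1
  choose e he m hm using fun k : ℕ => d5_rot (t k)
  have hpull : ∀ b, ∀ z ∈ St s, pull ρ (fun x => y b x + t b) (v b) z = pull ρ (y b) (v b) (z - (t b : ℂ)) := by
    intro b
    have h1 := d5_pull X.inv (hyt b) (hv b)
    have h3 := d5_pull X.inv (hy b) (hv b)
    refine d5_ident X.inv.pos.1 h1.1.hol (d5_HB_shift h3.1 (t b)).hol fun x => ?_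
    obtain ⟨r, hr⟩ := (hyt b).1.surj x
    have hr' : y b r + t b = x := hr
    have e1 := h1.2.2 r
    have e2 := h3.2.2 r
    have e1' : pull ρ (fun x => y b x + t b) (v b) (x : ℂ) = (v b r : ℂ) := by
      have := e1
      simp only [hr'] at this
      exact this
    have e3 : (x : ℂ) - (t b : ℂ) = (y b r : ℂ) := by
      rw [← hr']; push_cast; ring
    show pull ρ (fun x => y b x + t b) (v b) (x : ℂ) = pull ρ (y b) (v b) ((x : ℂ) - (t b : ℂ))
    rw [e1', e3, e2]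
  have hae : ∀ b : Fin (p + 1), ∀ᵐ ω ∂(PP P),
      d5F w ρ j (fun k x => y k x + t k) v b ω = d5F w ρ j y v b (ω.1, e b ω.2) := by
    intro b
    by_cases hb : (b : ℕ) < j
    · simp only [d5F, if_pos hb]
      have hκ := d5_HBs X (hy b) (hv b)
      have hκt := d5_HBs X (hyt b) (hv b)
      refine d5_ae_of (measurableSet_eq_fun (d5_ww_meas X.smd hκt)
        ((d5_ww_meas X.smd hκ).comp (measurable_fst.prodMk ((he b).measurable.comp measurable_snd)))) fun c => ?_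
      refine X.smd.ext (fun z => pull ρ (fun x => y b x + t b) (v b) (z - (c : ℂ)))
        (fun z => pull ρ (y b) (v b) (z - ((e b c : ℝ) : ℂ))) (d5_HB_shift hκt c) fun z hz => ?_
      have hz' : z - (c : ℂ) ∈ St s := d5_mono X.s0lt.le (d5_sub_mem hz c)
      show pull ρ (fun x => y b x + t b) (v b) (z - (c : ℂ)) = pull ρ (y b) (v b) (z - ((e b c : ℝ) : ℂ))
      rw [hpull b _ hz', hm b c]
      have e4 : z - (c : ℂ) - (t b : ℂ) = (z - ((c + t b + (m b c : ℤ) : ℝ) : ℂ)) + ((m b c : ℤ) : ℂ) := by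
        push_cast; ring
      rw [e4]
      exact d5_per_int hκ.per (m b c) _ (d5_sub_mem hz _)
    · refine Filter.Eventually.of_forall fun ω => ?_
      simp only [d5F, if_neg hb]
  have hae2 : ∀ᵐ ω : Fin (p + 1) → Ω × ℝ ∂(Measure.pi fun _ => PP P), ∀ b : Fin (p + 1),
      d5F w ρ j (fun k x => y k x + t k) v b (ω b) = d5F w ρ j y v b ((ω b).1, e b (ω b).2) :=
    Filter.eventually_all.2 fun b =>
      (Measure.tendsto_eval_ae_ae (μ := fun _ : Fin (p + 1) => PP P) (i := b)).eventually (hae b)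
  have hT1 : ∀ b : Fin (p + 1), MeasurePreserving (fun ω : Ω × ℝ => (ω.1, e b ω.2)) (PP P) (PP P) :=
    fun b => (MeasurePreserving.id P).prod (he b)
  have hT := measurePreserving_pi (fun _ : Fin (p + 1) => PP P) (fun _ => PP P) hT1
  have hmeas := d5_meas h2 X L hy hv hB j
  have hR : CJ P η w ρ p C j y v = ∫ ω : Fin (p + 1) → Ω × ℝ,
      C (d5Y η p y fun b => ((ω b).1, e b (ω b).2)) *
        ∏ b : Fin (p + 1), d5F w ρ j y v b ((ω b).1, e b (ω b).2) ∂(Measure.pi fun _ => PP P) := by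
    have h5 := integral_map (μ := Measure.pi fun _ : Fin (p + 1) => PP P) hT.measurable.aemeasurable
      (f := fun ω : Fin (p + 1) → Ω × ℝ => C (d5Y η p y ω) * ∏ b : Fin (p + 1), d5F w ρ j y v b (ω b))
      (by rw [hT.map_eq]; exact hmeas.aestronglyMeasurable)
    rw [hT.map_eq] at h5
    exact h5
  rw [hR]
  refine integral_congr_ae ?_
  filter_upwards [hae2] with ω hω
  have hCC : C (d5Y η p (fun k x => y k x + t k) ω) = C (d5Y η p y fun b => ((ω b).1, e b (ω b).2)) := by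
    let mm : ℕ → ℤ := fun k => if h : k < p + 1 then m k (ω ⟨k, h⟩).2 else 0
    have h6 := L.zinv (d5Y η p (fun k x => y k x + t k) ω) mm (d5_Y_mem h2 X hyt ω)
    rw [← h6]
    refine L.dep _ _ fun k hk => ?_
    have hk' : k < p + 1 := Nat.lt_succ_of_le hk
    funext x
    simp only [d5Y, dif_pos hk', mm]
    have hper := (X.smd.adm (ω ⟨k, hk'⟩).1).per
    have h7 : ∀ (i : ℤ) (r : ℝ), η (ω ⟨k, hk'⟩).1 ((r + (i : ℝ) : ℝ) : ℂ) = η (ω ⟨k, hk'⟩).1 (r : ℂ) + i := by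
      intro i r
      have h8 := d5_per_int (κ := fun z => η (ω ⟨k, hk'⟩).1 z - z) (s := s0 / 4) (fun z hz => by
        show η (ω ⟨k, hk'⟩).1 (z + 1) - (z + 1) = η (ω ⟨k, hk'⟩).1 z - z
        rw [hper z hz]; ring) i (r : ℂ) (d5_real_mem (by linarith [X.s0pos]) r)
      have h9 : ((r + (i : ℝ) : ℝ) : ℂ) = (r : ℂ) + (i : ℂ) := by push_cast; ring
      rw [h9]
      have h10 : η (ω ⟨k, hk'⟩).1 ((r : ℂ) + (i : ℂ)) - ((r : ℂ) + (i : ℂ)) = η (ω ⟨k, hk'⟩).1 (r : ℂ) - r := h8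
      linear_combination h10
    show (η (ω ⟨k, hk'⟩).1 (((y k x + t k) + (ω ⟨k, hk'⟩).2 : ℝ) : ℂ)).re + ((m k (ω ⟨k, hk'⟩).2 : ℤ) : ℝ)
      = (η (ω ⟨k, hk'⟩).1 ((y k x + e k (ω ⟨k, hk'⟩).2 : ℝ) : ℂ)).re
    rw [hm k]
    have h11 : y k x + ((ω ⟨k, hk'⟩).2 + t k + ((m k (ω ⟨k, hk'⟩).2 : ℤ) : ℝ))
        = (y k x + t k + (ω ⟨k, hk'⟩).2) + ((m k (ω ⟨k, hk'⟩).2 : ℤ) : ℝ) := by ring
    rw [h11, h7]
    simp
  show C (d5Y η p (fun k x => y k x + t k) ω) * ∏ b : Fin (p + 1), d5F w ρ j (fun k x => y k x + t k) v b (ω b)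
    = C (d5Y η p y fun b => ((ω b).1, e b (ω b).2)) *
        ∏ b : Fin (p + 1), d5F w ρ j y v b ((ω b).1, e b (ω b).2)
  rw [hCC, Finset.prod_congr rfl fun b _ => hω b]

end main

/-- D5 -/
theorem st_D5 (_h1 : ST_D1) (h2 : ST_D2) (h3 : ST_D3) : ST_D5 := by
  intro n n' p ρ s M s0 Ω _ _ _ _ _ _ P _ η w Cw X C L
  obtain ⟨B, hB0, hB⟩ := d5_bdd h2 h3 (X.good.1.trans X.good.2.1) L
  refine ⟨?_, ?_, ?_, ?_, ?_⟩
  · intro j _ y v K hy hv
    exact d5_meas h2 X L hy hv hB j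
  · intro j _ K
    refine ⟨∏ b : Fin (p + 1), (if (b : ℕ) < j then |Cw * (M * K)| else 1), ?_, ?_⟩
    · refine Finset.prod_nonneg fun b _ => ?_
      split_ifs
      · exact abs_nonneg _
      · exact zero_le_one
    · intro B' hB' y v hy hv
      exact d5_bound h2 X hy hv hB' j
  · intro j hj K ε hε
    exact d5_uc h2 h3 X L hj K hε
  · intro j _ y v g K hg hy hv hyg hvg
    exact d5_rinv h2 X L j hg hy hv hyg hvg
  · intro j _ y v t K hy hv
    exact d5_tinv h2 X L j t hy hv hB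

end

end Pool.Agent.Helper67.DO
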